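import Pool.Agent.W692.TB.Stms

open scoped BigOperators Topology ENNReal NNReal
open Filter Set MeasureTheory H316F

namespace Pool.Agent.W692.TB

theorem mem_signs {K : ℕ} {θ : Fin K → ℝ} : θ ∈ signs K ↔ ∀ k, θ k = 1 ∨ θ k = -1 := by
  simp [signs, Fintype.mem_piFinset]

theorem signs_sq {K : ℕ} {θ : Fin K → ℝ} (h : θ ∈ signs K) (k : Fin K) : θ k * θ k = 1 := by
  rcases mem_signs.1 h k with h | h <;> rw [h] <;> norm_num

theorem mul_mem_signs {K : ℕ} {σ θ : Fin K → ℝ} (hσ : σ ∈ signs K) (hθ : θ ∈ signs K) :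
    (fun k => σ k * θ k) ∈ signs K := by
  rw [mem_signs]
  intro k
  rcases mem_signs.1 hσ k with h | h <;> rcases mem_signs.1 hθ k with h' | h' <;> simp [h, h']

theorem sum_signs_mul {K : ℕ} {σ : Fin K → ℝ} (hσ : σ ∈ signs K) (f : (Fin K → ℝ) → ℝ) :
    ∑ θ ∈ signs K, f (fun k => σ k * θ k) = ∑ θ ∈ signs K, f θ := by
  refine Finset.sum_nbij' (fun θ => fun k => σ k * θ k) (fun θ => fun k => σ k * θ k) ?_ ?_ ?_ ?_ ?_
  · intro θ hθ; exact mul_mem_signs hσ hθ
  · intro θ hθ; exact mul_mem_signs hσ hθ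
  · intro θ _
    funext k
    rw [← mul_assoc, signs_sq hσ, one_mul]
  · intro θ _
    funext k
    rw [← mul_assoc, signs_sq hσ, one_mul]
  · intro θ _; rfl

theorem card_signs (K : ℕ) : ((signs K).card : ℝ) = 2 ^ K := by
  rw [signs, Fintype.card_piFinset_const]
  have : ({1, -1} : Finset ℝ).card = 2 := by
    rw [Finset.card_pair]; norm_num
  rw [this]
  simp

theorem conv_ineq {q : ℝ} (hq : 1 ≤ q) (s b t : ℝ) (ht : |t| ≤ 1) :
    |s + t * b| ^ q ≤ (1 + t) / 2 * |s + b| ^ q + (1 - t) / 2 * |s - b| ^ q := by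
  have h1 := (convexOn_rpow hq)
  have ht' := abs_le.1 ht
  have ha : 0 ≤ (1 + t) / 2 := by linarith
  have hb : 0 ≤ (1 - t) / 2 := by linarith
  have m1 : |s + b| ∈ Ici (0 : ℝ) := abs_nonneg (s + b)
  have m2 : |s - b| ∈ Ici (0 : ℝ) := abs_nonneg (s - b)
  have h2 := h1.2 m1 m2 ha hb (by ring)
  simp only [smul_eq_mul] at h2
  refine le_trans ?_ h2
  refine Real.rpow_le_rpow (abs_nonneg _) ?_ (by linarith)
  calc |s + t * b| = |(1 + t) / 2 * (s + b) + (1 - t) / 2 * (s - b)| := by congr 1; ring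
    _ ≤ |(1 + t) / 2 * (s + b)| + |(1 - t) / 2 * (s - b)| := abs_add_le _ _
    _ = _ := by rw [abs_mul, abs_mul, abs_of_nonneg ha, abs_of_nonneg hb]

theorem cp_step {q : ℝ} (hq : 1 ≤ q) {K : ℕ} (b : Fin K → ℝ) (k0 : Fin K) (t : ℝ) (ht : |t| ≤ 1) :
    ∑ θ ∈ signs K, |∑ k, θ k * (if k = k0 then t * b k else b k)| ^ q ≤
      ∑ θ ∈ signs K, |∑ k, θ k * b k| ^ q := by
  classical
  have e1 : ∀ θ : Fin K → ℝ, ∀ u : ℝ, ∑ k, θ k * (if k = k0 then u * b k else b k) =
      (∑ k ∈ Finset.univ.erase k0, θ k * b k) + u * (θ k0 * b k0) := by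
    intro θ u
    rw [← Finset.add_sum_erase _ _ (Finset.mem_univ k0), if_pos rfl, add_comm]
    congr 1
    · refine Finset.sum_congr rfl fun k hk => ?_
      rw [if_neg (Finset.ne_of_mem_erase hk)]
    · ring
  have e2 : ∀ θ : Fin K → ℝ, ∑ k, θ k * b k =
      (∑ k ∈ Finset.univ.erase k0, θ k * b k) + θ k0 * b k0 := by
    intro θ
    rw [← Finset.add_sum_erase _ _ (Finset.mem_univ k0), add_comm]
  have hσ : (fun k => if k = k0 then (-1 : ℝ) else 1) ∈ signs K := by
    rw [mem_signs]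
    intro k
    by_cases h : k = k0 <;> simp [h]
  have e3 : ∑ θ ∈ signs K, |(∑ k ∈ Finset.univ.erase k0, θ k * b k) - θ k0 * b k0| ^ q =
      ∑ θ ∈ signs K, |(∑ k ∈ Finset.univ.erase k0, θ k * b k) + θ k0 * b k0| ^ q := by
    rw [← sum_signs_mul hσ]
    refine Finset.sum_congr rfl fun θ _ => ?_
    congr 2
    rw [sub_eq_add_neg]
    congr 1
    · refine Finset.sum_congr rfl fun k hk => ?_
      simp only [if_neg (Finset.ne_of_mem_erase hk), one_mul]
    · simp
  simp only [e1, e2]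
  calc _ ≤ ∑ θ ∈ signs K, ((1 + t) / 2 * |(∑ k ∈ Finset.univ.erase k0, θ k * b k) + θ k0 * b k0| ^ q +
          (1 - t) / 2 * |(∑ k ∈ Finset.univ.erase k0, θ k * b k) - θ k0 * b k0| ^ q) :=
        Finset.sum_le_sum fun θ _ => conv_ineq hq _ _ t ht
    _ = (1 + t) / 2 * ∑ θ ∈ signs K, |(∑ k ∈ Finset.univ.erase k0, θ k * b k) + θ k0 * b k0| ^ q +
        (1 - t) / 2 * ∑ θ ∈ signs K, |(∑ k ∈ Finset.univ.erase k0, θ k * b k) - θ k0 * b k0| ^ q := by
        rw [Finset.sum_add_distrib, Finset.mul_sum, Finset.mul_sum]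
    _ = _ := by rw [e3]; ring

theorem arB1 (q : ℝ) (hq : 1 ≤ q) (K : ℕ) (a c : Fin K → ℝ) (hc : ∀ k, |c k| ≤ 1) :
    ∑ θ ∈ signs K, |∑ k, θ k * (c k * a k)| ^ q ≤ ∑ θ ∈ signs K, |∑ k, θ k * a k| ^ q := by
  classical
  have key : ∀ s : Finset (Fin K),
      ∑ θ ∈ signs K, |∑ k, θ k * ((if k ∈ s then c k else 1) * a k)| ^ q ≤
        ∑ θ ∈ signs K, |∑ k, θ k * a k| ^ q := by
    intro s
    induction s using Finset.induction_on with
    | empty => simp
    | insert k0 s hk0 ih =>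
      refine le_trans (le_of_eq ?_) ((cp_step hq (fun k => (if k ∈ s then c k else 1) * a k) k0
        (c k0) (hc k0)).trans ih)
      refine Finset.sum_congr rfl fun θ _ => ?_
      congr 2
      refine Finset.sum_congr rfl fun k _ => ?_
      congr 1
      by_cases h : k = k0
      · subst h
        simp [hk0]
      · simp [h, Finset.mem_insert]
  have := key Finset.univ
  simpa using this

theorem arB2 (q : ℝ) (K L : ℕ) (l : Fin K → Fin L) (a b : Fin K → ℝ) (hab : ∀ k, |a k| = |b k|)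
    (hl : ∀ k k', k ≠ k' → l k = l k' → a k = 0 ∨ a k' = 0) :
    2 ^ L * ∑ θ ∈ signs K, |∑ k, θ k * a k| ^ q =
      2 ^ K * ∑ θ ∈ signs L, |∑ k, θ (l k) * b k| ^ q := by
  classical
  set S : ℝ := ∑ θ ∈ signs K, ∑ τ ∈ signs L, |∑ k, θ k * (τ (l k) * b k)| ^ q with hS
  have h1 : S = 2 ^ L * ∑ θ ∈ signs K, |∑ k, θ k * a k| ^ q := by
    rw [hS, Finset.sum_comm]
    have h2 : ∀ τ ∈ signs L, ∑ θ ∈ signs K, |∑ k, θ k * (τ (l k) * b k)| ^ q =
        ∑ θ ∈ signs K, |∑ k, θ k * a k| ^ q := by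
      intro τ hτ
      -- `a k = ε k * b k`
      have h3 : ∀ k, ∃ e : ℝ, (e = 1 ∨ e = -1) ∧ τ (l k) * b k = e * a k := by
        intro k
        rcases abs_eq_abs.1 (hab k) with h | h <;> rcases mem_signs.1 hτ (l k) with h' | h'
        · exact ⟨1, Or.inl rfl, by rw [h', h]⟩
        · exact ⟨-1, Or.inr rfl, by rw [h', h]⟩
        · exact ⟨-1, Or.inr rfl, by rw [h', h]; ring⟩
        · exact ⟨1, Or.inl rfl, by rw [h', h]; ring⟩
      choose e he1 he2 using h3
      have he : e ∈ signs K := mem_signs.2 he1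
      rw [← sum_signs_mul he (fun θ => |∑ k, θ k * a k| ^ q)]
      refine Finset.sum_congr rfl fun θ _ => ?_
      congr 2
      refine Finset.sum_congr rfl fun k _ => ?_
      rw [he2]; ring
    rw [Finset.sum_congr rfl h2, Finset.sum_const, nsmul_eq_mul, card_signs]
  have h2 : S = 2 ^ K * ∑ τ ∈ signs L, |∑ k, τ (l k) * b k| ^ q := by
    rw [hS]
    have h3 : ∀ θ ∈ signs K, ∑ τ ∈ signs L, |∑ k, θ k * (τ (l k) * b k)| ^ q =
        ∑ τ ∈ signs L, |∑ k, τ (l k) * b k| ^ q := by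
      intro θ hθ
      have hb0 : ∀ k, b k = 0 ↔ a k = 0 := fun k => by
        rw [← abs_eq_zero, ← hab k, abs_eq_zero]
      have h4 : ∃ σ ∈ signs L, ∀ k, σ (l k) * b k = θ k * b k := by
        refine ⟨fun m => if h : ∃ k, l k = m ∧ b k ≠ 0 then θ h.choose else 1, ?_, ?_⟩
        · rw [mem_signs]
          intro m
          by_cases h : ∃ k, l k = m ∧ b k ≠ 0
          · simp only [h, dif_pos]
            exact mem_signs.1 hθ _
          · simp only [h, dif_neg, not_false_eq_true]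
            exact Or.inl trivial
        · intro k
          by_cases hbk : b k = 0
          · rw [hbk, mul_zero, mul_zero]
          · have h : ∃ k', l k' = l k ∧ b k' ≠ 0 := ⟨k, rfl, hbk⟩
            simp only [h, dif_pos]
            have h5 := h.choose_spec
            have h6 : h.choose = k := by
              by_contra hne
              rcases hl _ _ hne h5.1 with h7 | h7
              · exact h5.2 ((hb0 _).2 h7)
              · exact hbk ((hb0 _).2 h7)
            rw [h6]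
      obtain ⟨σ, hσ, h5⟩ := h4
      rw [← sum_signs_mul hσ (fun τ => |∑ k, τ (l k) * b k| ^ q)]
      refine Finset.sum_congr rfl fun τ _ => ?_
      congr 2
      refine Finset.sum_congr rfl fun k _ => ?_
      have := h5 k
      calc θ k * (τ (l k) * b k) = τ (l k) * (θ k * b k) := by ring
        _ = τ (l k) * (σ (l k) * b k) := by rw [this]
        _ = _ := by ring
    rw [Finset.sum_congr rfl h3, Finset.sum_const, nsmul_eq_mul, card_signs]
  rw [← h1, h2]

theorem arB : S_arB := ⟨arB1, arB2⟩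

end Pool.Agent.W692.TB
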