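import Pool.Agent.W692.TB.ArA
import Pool.Agent.W692.TB.ArB

open scoped BigOperators Topology ENNReal NNReal
open Filter Set MeasureTheory H316F

namespace Pool.Agent.W692.TB

variable {p : ℝ≥0∞} [hp1 : Fact (1 ≤ p)]

theorem part_coe (M : ℕ) (s : Finset ℤ) (g : ℤ → ℝ) :
    part p M s g =ᵐ[volume] fun t => if ⌊t * 2 ^ M⌋ ∈ s then g ⌊t * 2 ^ M⌋ else 0 := by
  classical
  have h1 : ∀ᵐ t, ∀ j ∈ s, (g j • ind p M j : X p) t = g j * (cell M j).indicator (fun _ => (1 : ℝ)) t := by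
    refine (ae_ball_iff s.countable_toSet).2 fun j _ => ?_
    filter_upwards [Lp.coeFn_smul (g j) (ind p M j), ind_coe (p := p) M j] with t h2 h3
    rw [h2, Pi.smul_apply, h3, smul_eq_mul]
  filter_upwards [h1, Lp.coeFn_finsetSum s (fun j => g j • ind p M j)] with t h2 h3
  rw [part, h3, Finset.sum_apply, Finset.sum_congr rfl h2]
  by_cases h : ⌊t * 2 ^ M⌋ ∈ s
  · rw [if_pos h, Finset.sum_eq_single ⌊t * 2 ^ M⌋]
    · rw [Set.indicator_of_mem (mem_cell.2 rfl), mul_one]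
    · intro j _ hj
      rw [Set.indicator_of_notMem (fun h' => hj (mem_cell.1 h').symm), mul_zero]
    · intro h'; exact absurd h h'
  · rw [if_neg h]
    refine Finset.sum_eq_zero fun j hj => ?_
    rw [Set.indicator_of_notMem (fun h' => h ((mem_cell.1 h') ▸ hj)), mul_zero]

theorem floor_level {M N : ℕ} (h : M ≤ N) (t : ℝ) : ⌊t * 2 ^ M⌋ = ⌊t * 2 ^ N⌋ / 2 ^ (N - M) := by
  have e1 : (2 : ℝ) ^ N = 2 ^ M * 2 ^ (N - M) := by rw [← pow_add]; congr 1; omega
  have h2 : (0 : ℝ) < 2 ^ (N - M) := by positivity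
  have h2z : (0 : ℤ) < 2 ^ (N - M) := by positivity
  set z := ⌊t * 2 ^ N⌋ with hz
  have h3 := Int.floor_le (t * 2 ^ N)
  have h4 := Int.lt_floor_add_one (t * 2 ^ N)
  rw [← hz] at h3 h4
  rw [Int.floor_eq_iff]
  have h5 : z / 2 ^ (N - M) * 2 ^ (N - M) ≤ z := Int.ediv_mul_le _ h2z.ne'
  have h6 : z + 1 ≤ (z / 2 ^ (N - M) + 1) * 2 ^ (N - M) := Int.lt_ediv_add_one_mul_self z h2z
  have h5' : ((z / 2 ^ (N - M) : ℤ) : ℝ) * 2 ^ (N - M) ≤ z := by exact_mod_cast h5
  have h6' : (z : ℝ) + 1 ≤ (((z / 2 ^ (N - M) : ℤ) : ℝ) + 1) * 2 ^ (N - M) := by exact_mod_cast h6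
  constructor
  · have : ((z / 2 ^ (N - M) : ℤ) : ℝ) * 2 ^ (N - M) ≤ t * 2 ^ M * 2 ^ (N - M) := by
      rw [mul_assoc, ← e1]; linarith
    exact le_of_mul_le_mul_right this h2
  · have : t * 2 ^ M * 2 ^ (N - M) < (((z / 2 ^ (N - M) : ℤ) : ℝ) + 1) * 2 ^ (N - M) := by
      rw [mul_assoc, ← e1]; linarith
    exact lt_of_mul_lt_mul_right this h2.le

theorem part_refine {M N : ℕ} (h : M ≤ N) (s : Finset ℤ) (hs : ∀ m ∈ s, 0 ≤ m ∧ m < 2 ^ M) (g : ℤ → ℝ) :
    part p M s g = part p N (Finset.Ico 0 (2 ^ N))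
      (fun m => if m / 2 ^ (N - M) ∈ s then g (m / 2 ^ (N - M)) else 0) := by
  apply Lp.ext
  filter_upwards [part_coe (p := p) M s g, part_coe (p := p) N (Finset.Ico 0 (2 ^ N))
    (fun m => if m / 2 ^ (N - M) ∈ s then g (m / 2 ^ (N - M)) else 0)] with t h1 h2
  rw [h1, h2, floor_level h t]
  by_cases h3 : ⌊t * 2 ^ N⌋ ∈ Finset.Ico (0 : ℤ) (2 ^ N)
  · rw [if_pos h3]
  · rw [if_neg h3, if_neg]
    intro h4
    obtain ⟨h5, h6⟩ := hs _ h4
    apply h3
    have h2z : (0 : ℤ) < 2 ^ (N - M) := by positivity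
    have e1 : (2 : ℤ) ^ N = 2 ^ M * 2 ^ (N - M) := by rw [← pow_add]; congr 1; omega
    rw [Finset.mem_Ico]
    constructor
    · by_contra h7
      push Not at h7
      have := Int.ediv_neg_of_neg_of_pos h7 h2z
      omega
    · rw [e1]
      exact (Int.ediv_lt_iff_lt_mul h2z).1 h6

theorem rpow_add_le'' {q : ℝ} (hq : 1 ≤ q) {a b : ℝ} (ha : 0 ≤ a) (hb : 0 ≤ b) :
    (a + b) ^ q ≤ 2 ^ (q - 1) * (a ^ q + b ^ q) := by
  lift a to ℝ≥0 using ha
  lift b to ℝ≥0 using hb
  exact_mod_cast NNReal.rpow_add_le_mul_rpow_add_rpow a b hq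

/-- values of `|Haar|` on the cells of level `N` -/
noncomputable def ev (q : ℝ) (N k : ℕ) (m : ℤ) : ℝ :=
  if m / 2 ^ (N - lv k) = ix k then (2 : ℝ) ^ ((lv k : ℝ) / q) else 0

noncomputable def hv (q : ℝ) (N k : ℕ) (m : ℤ) : ℝ :=
  if k = 0 then 1 else
    if m / 2 ^ (N - (lv k + 1)) = 2 * ix k then (2 : ℝ) ^ ((lv k : ℝ) / q) else
    if m / 2 ^ (N - (lv k + 1)) = 2 * ix k + 1 then -(2 : ℝ) ^ ((lv k : ℝ) / q) else 0

theorem ev_nonneg (q : ℝ) (N k : ℕ) (m : ℤ) : 0 ≤ ev q N k m := by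
  rw [ev]; split_ifs <;> positivity

theorem hv_abs {q : ℝ} {N k : ℕ} (hN : lv k + 1 ≤ N) {m : ℤ} (hm : m ∈ Finset.Ico (0 : ℤ) (2 ^ N)) :
    |hv q N k m| = ev q N k m := by
  rw [Finset.mem_Ico] at hm
  rw [hv, ev]
  by_cases hk : k = 0
  · subst hk
    have h1 : m / 2 ^ (N - lv 0) = ((ix 0 : ℕ) : ℤ) := by
      have e1 : lv 0 = 0 := by simp [lv]
      have e2 : ix 0 = 0 := by simp [ix]
      rw [e1, e2]
      exact Int.ediv_eq_zero_of_lt hm.1 (by simpa using hm.2)
    rw [if_pos rfl, if_pos h1]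
    simp [lv]
  · rw [if_neg hk]
    have e1 : m / 2 ^ (N - lv k) = m / 2 ^ (N - (lv k + 1)) / 2 := by
      rw [Int.ediv_ediv_of_nonneg (by positivity)]
      congr 1
      rw [← pow_succ]
      congr 1
      omega
    rw [e1]
    set w := m / 2 ^ (N - (lv k + 1)) with hw
    have hb : (0 : ℝ) ≤ (2 : ℝ) ^ ((lv k : ℝ) / q) := by positivity
    by_cases h1 : w = 2 * ix k
    · rw [if_pos h1, if_pos (by omega), abs_of_nonneg hb]
    · rw [if_neg h1]
      by_cases h2 : w = 2 * ix k + 1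
      · rw [if_pos h2, if_pos (by omega), abs_neg, abs_of_nonneg hb]
      · rw [if_neg h2, if_neg (by omega), abs_zero]

theorem Hr_part {N k : ℕ} (hN : lv k + 1 ≤ N) :
    Hr p k = part p N (Finset.Ico 0 (2 ^ N)) (hv p.toReal N k) := by
  by_cases hk : k = 0
  · subst hk
    have h1 : Hr p 0 = part p 0 {0} (fun _ => 1) := by
      rw [Hr, if_pos rfl, part]; simp
    rw [h1, part_refine (Nat.zero_le N) {0} (by simp)]
    refine Finset.sum_congr rfl fun m hm => ?_
    congr 1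
    rw [Finset.mem_Ico] at hm
    have : m / 2 ^ (N - 0) = 0 := Int.ediv_eq_zero_of_lt hm.1 (by simpa using hm.2)
    simp only [this, hv, Finset.mem_singleton, if_true]
  · have h1 : Hr p k = part p (lv k + 1) {2 * (ix k : ℤ), 2 * (ix k : ℤ) + 1}
        (fun m => if m = 2 * (ix k : ℤ) then (2 : ℝ) ^ ((lv k : ℝ) / p.toReal) else
          -(2 : ℝ) ^ ((lv k : ℝ) / p.toReal)) := by
      rw [Hr, if_neg hk, part, Finset.sum_pair (by omega), if_pos rfl, if_neg (by omega), smul_sub,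
        neg_smul]
      abel
    have h2 := ix_lt k
    have h3 : (ix k : ℤ) + 1 ≤ 2 ^ lv k := by exact_mod_cast h2
    rw [h1, part_refine hN _ (by
      intro m hm
      rw [Finset.mem_insert, Finset.mem_singleton] at hm
      rw [pow_succ]
      rcases hm with rfl | rfl <;> constructor <;> omega)]
    refine Finset.sum_congr rfl fun m _ => ?_
    congr 1
    simp only [hv, if_neg hk, Finset.mem_insert, Finset.mem_singleton]
    generalize m / 2 ^ (N - (lv k + 1)) = w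
    by_cases h4 : w = 2 * ix k
    · simp [h4]
    · by_cases h5 : w = 2 * ix k + 1
      · simp [h5]
      · simp [h4, h5]

theorem J_iff {l i M N : ℕ} (hl : l ≤ M) (hM : M ≤ N) (m : ℤ) :
    m / 2 ^ (N - M) ∈ J l i M ↔ m / 2 ^ (N - l) = i := by
  have h1 : (0 : ℤ) < 2 ^ (M - l) := by positivity
  have e1 : m / 2 ^ (N - l) = m / 2 ^ (N - M) / 2 ^ (M - l) := by
    rw [Int.ediv_ediv_of_nonneg (by positivity), ← pow_add]
    congr 2
    omega
  rw [e1, J, Finset.mem_Ico]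
  set w := m / 2 ^ (N - M)
  constructor
  · rintro ⟨h2, h3⟩
    apply le_antisymm
    · have : w / 2 ^ (M - l) < i + 1 := (Int.ediv_lt_iff_lt_mul h1).2 h3
      omega
    · exact (Int.le_ediv_iff_mul_le h1).2 h2
  · intro h2
    constructor
    · exact (Int.le_ediv_iff_mul_le h1).1 h2.ge
    · refine (Int.ediv_lt_iff_lt_mul h1).1 ?_
      omega

theorem hc_part {k a M N : ℕ} (hla : lv k + a ≤ M) (hMN : M ≤ N) :
    hc p (lv k) (ix k) a M 1 =
      part p N (Finset.Ico 0 (2 ^ N)) (fun m => (ec a (m / 2 ^ (N - M))).re * ev p.toReal N k m) +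
      Tr ℝ p 1 (part p N (Finset.Ico 0 (2 ^ N))
        (fun m => (ec a (m / 2 ^ (N - M))).im * ev p.toReal N k m)) := by
  have hlM : lv k ≤ M := by omega
  rw [hc_eq]
  simp only [map_one, mul_one]
  have hs : ∀ m ∈ J (lv k) (ix k) M, 0 ≤ m ∧ m < 2 ^ M := fun m hm => J_sub hlM (ix_lt k) hm
  rw [part_refine hMN _ hs, part_refine hMN _ hs]
  have key : ∀ g : ℤ → ℝ, part p N (Finset.Ico 0 (2 ^ N)) (fun m =>
      if m / 2 ^ (N - M) ∈ J (lv k) (ix k) M then
        (2 : ℝ) ^ ((lv k : ℝ) / p.toReal) * g (m / 2 ^ (N - M)) else 0) =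
      part p N (Finset.Ico 0 (2 ^ N)) (fun m => g (m / 2 ^ (N - M)) * ev p.toReal N k m) := by
    intro g
    refine Finset.sum_congr rfl fun m _ => ?_
    congr 1
    simp only [ev, J_iff hlM hMN]
    split_ifs <;> ring
  rw [key (fun m => (ec a m).re), key (fun m => (ec a m).im)]

theorem ev_level {q : ℝ} {N : ℕ} {k k' : ℕ} (hne : k ≠ k') (hl : lvi k = lvi k') (m : ℤ) :
    ev q N k m = 0 ∨ ev q N k' m = 0 := by
  by_cases hk : k = 0
  · by_cases hk' : k' = 0
    · exact absurd (hk.trans hk'.symm) hne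
    · rw [lvi, lvi, if_pos hk, if_neg hk'] at hl
      omega
  · by_cases hk' : k' = 0
    · rw [lvi, lvi, if_neg hk, if_pos hk'] at hl
      omega
    · rw [lvi, lvi, if_neg hk, if_neg hk'] at hl
      have h1 : lv k = lv k' := by omega
      have h2 : 2 ^ lv k ≤ k := Nat.pow_log_le_self 2 hk
      have h3 : 2 ^ lv k' ≤ k' := Nat.pow_log_le_self 2 hk'
      have h4 : ix k ≠ ix k' := by
        rw [ix, ix]
        rw [h1] at h2 ⊢
        omega
      rw [ev, ev, h1]
      by_cases h5 : m / 2 ^ (N - lv k') = ix k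
      · right
        rw [if_neg]
        intro h6
        apply h4
        have : (ix k : ℤ) = ix k' := h5.symm.trans h6
        exact_mod_cast this
      · left
        rw [if_neg h5]

/-- extension of a sign vector -/
noncomputable def ex {K : ℕ} (θ : Fin K → ℝ) : ℕ → ℝ := fun k => if h : k < K then θ ⟨k, h⟩ else 1

theorem ex_sign {K : ℕ} {θ : Fin K → ℝ} (hθ : ∀ k, θ k = 1 ∨ θ k = -1) (k : ℕ) :
    ex θ k = 1 ∨ ex θ k = -1 := by
  rw [ex]
  split_ifs with h
  · exact hθ _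
  · exact Or.inl rfl

theorem ex_fin {K : ℕ} (θ : Fin K → ℝ) (k : Fin K) : ex θ k = θ k := by
  simp [ex]

theorem sum_part (N : ℕ) (s : Finset ℤ) (K : ℕ) (c : ℕ → ℝ) (g : ℕ → ℤ → ℝ) :
    ∑ k ∈ Finset.range K, c k • part p N s (g k) =
      part p N s (fun m => ∑ k ∈ Finset.range K, c k * g k m) := by
  unfold part
  simp only [Finset.smul_sum, smul_smul, Finset.sum_smul]
  rw [Finset.sum_comm]

theorem two_norm (hp : p ≠ ⊤) (u w : X p) (hu : SuppOn (Ico 0 1) u) (hw : SuppOn (Ico 0 1) w) :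
    ‖u + Tr ℝ p 1 w‖ ^ p.toReal = ‖u‖ ^ p.toReal + ‖w‖ ^ p.toReal := by
  have h2 := disj_sum hp (Finset.univ : Finset Bool)
    (fun k => if k then Ico (0 : ℝ) 1 else {t | t - 1 ∈ Ico (0 : ℝ) 1}) (by
      intro i _ j _ hij
      have key : Disjoint (Ico (0 : ℝ) 1) {t : ℝ | t - 1 ∈ Ico (0 : ℝ) 1} := by
        rw [Set.disjoint_left]
        intro t h3 h4
        rw [mem_Ico] at h3
        rw [Set.mem_ofPred_eq, mem_Ico] at h4
        linarith [h3.2, h4.1]
      cases i <;> cases j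
      · exact absurd rfl hij
      · simpa using key.symm
      · simpa using key
      · exact absurd rfl hij) (fun k => if k then u else Tr ℝ p 1 w) (by
      intro i _
      cases i
      · simpa using supp_Tr _ _ hw 1
      · simpa using hu)
  simp only [Fintype.sum_bool, if_true, Bool.false_eq_true, if_false,
    LinearIsometry.norm_map] at h2
  exact h2

theorem part_supp' (N : ℕ) (g : ℤ → ℝ) : SuppOn (Ico 0 1) (part p N (Finset.Ico 0 (2 ^ N)) g) := by
  have h := part_supp (p := p) (l := 0) (i := 0) (Nat.zero_le N) (by norm_num) g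
  have e : J 0 0 N = Finset.Ico 0 (2 ^ N) := by
    rw [J]; simp
  rwa [e] at h

theorem avg_bound {q C x : ℝ} {K : ℕ} {ι : Type*} (s : Finset ι) (f : ι → ℝ) (hs : (s.card : ℝ) = 2 ^ K)
    (hC : 0 < C) (hq : 0 < q) (hx : 0 ≤ x) (hf : ∀ i ∈ s, 0 ≤ f i)
    (h1 : ∀ i ∈ s, x ≤ C * f i) (h2 : ∀ i ∈ s, f i ≤ C * x) :
    2 ^ K * x ^ q ≤ C ^ q * ∑ i ∈ s, f i ^ q ∧ ∑ i ∈ s, f i ^ q ≤ 2 ^ K * (C ^ q * x ^ q) := by
  constructor
  · rw [← hs, Finset.mul_sum, ← nsmul_eq_mul, ← Finset.sum_const]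
    refine Finset.sum_le_sum fun i hi => ?_
    rw [← Real.mul_rpow hC.le (hf i hi)]
    exact Real.rpow_le_rpow hx (h1 i hi) hq.le
  · rw [← hs, ← nsmul_eq_mul, ← Finset.sum_const]
    refine Finset.sum_le_sum fun i hi => ?_
    rw [← Real.mul_rpow hC.le hx]
    exact Real.rpow_le_rpow (hf i hi) (h2 i hi) hq.le

theorem arC : S_arC := by
  intro hA hB p _ h1p h2p
  classical
  have hp : p ≠ ⊤ := ne_top_of_lt h2p
  obtain ⟨C, hC, hA1, hA2⟩ := hA p h1p h2p
  obtain ⟨hB1, hB2⟩ := hB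
  set q := p.toReal with hq
  have hq1 : 1 < q := by
    have := (ENNReal.toReal_lt_toReal (by norm_num) hp).2 h1p
    simpa using this
  have hq2 : q < 2 := by
    have := (ENNReal.toReal_lt_toReal hp (by norm_num)).2 h2p
    simpa using this
  have hq0 : 0 < q := by linarith
  refine ⟨1 / (2 * C ^ 2), 2 * C ^ 2, by positivity, by positivity, ?_⟩
  intro a M ha hlM hMM K t
  set N := M K with hN
  have hmono : Monotone M := monotone_nat_of_le_succ fun k => by have := hMM k; omega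
  have hMN : ∀ k, k < K → M k ≤ N := fun k hk => hmono hk.le
  have hlN : ∀ k, k < K → lv k + 1 ≤ N := fun k hk => by
    have h1 := hlM k
    have h2 := ha k
    have h3 := hMN k hk
    omega
  set S := Finset.Ico (0 : ℤ) (2 ^ N) with hS
  set cs : ℕ → ℤ → ℝ := fun k m => (ec (a k) (m / 2 ^ (N - M k))).re with hcs
  set sn : ℕ → ℤ → ℝ := fun k m => (ec (a k) (m / 2 ^ (N - M k))).im with hsn
  have hcs1 : ∀ k m, |cs k m| ≤ 1 := fun k m => by
    rw [← ec_norm (a k) (m / 2 ^ (N - M k))]; exact Complex.abs_re_le_norm _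
  have hsn1 : ∀ k m, |sn k m| ≤ 1 := fun k m => by
    rw [← ec_norm (a k) (m / 2 ^ (N - M k))]; exact Complex.abs_im_le_norm _
  have hcssn : ∀ k m, cs k m * cs k m + sn k m * sn k m = 1 := fun k m => by
    have h1 := ec_norm (a k) (m / 2 ^ (N - M k))
    have h2 : Complex.normSq (ec (a k) (m / 2 ^ (N - M k))) = 1 := by
      rw [Complex.normSq_eq_norm_sq, h1]; norm_num
    rw [Complex.normSq_apply] at h2
    exact h2
  set e : ℕ → ℤ → ℝ := ev q N with he
  set h : ℕ → X p := fun k => hc p (lv k) (ix k) (a k) (M k) 1 with hh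
  have h2N : (0 : ℝ) < (2 ^ N)⁻¹ := by positivity
  have F1 : ∀ c : ℕ → ℝ, ‖∑ k ∈ Finset.range K, c k • h k‖ ^ q =
      ∑ m ∈ S, (|∑ k ∈ Finset.range K, c k * (cs k m * e k m)| ^ q +
        |∑ k ∈ Finset.range K, c k * (sn k m * e k m)| ^ q) * (2 ^ N)⁻¹ := by
    intro c
    have e1 : ∑ k ∈ Finset.range K, c k • h k =
        part p N S (fun m => ∑ k ∈ Finset.range K, c k * (cs k m * e k m)) +
        Tr ℝ p 1 (part p N S (fun m => ∑ k ∈ Finset.range K, c k * (sn k m * e k m))) := by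
      rw [← sum_part, ← sum_part, map_sum, ← Finset.sum_add_distrib]
      refine Finset.sum_congr rfl fun k hk => ?_
      rw [Finset.mem_range] at hk
      rw [map_smul, ← smul_add]
      congr 1
      exact hc_part (hlM k) (hMN k hk)
    rw [e1, two_norm hp _ _ (part_supp' _ _) (part_supp' _ _), part_norm hp, part_norm hp,
      ← Finset.sum_add_distrib]
    refine Finset.sum_congr rfl fun m _ => ?_
    ring
  have F2 : ∀ c : ℕ → ℝ, ‖∑ k ∈ Finset.range K, c k • Hr p k‖ ^ q =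
      ∑ m ∈ S, |∑ k ∈ Finset.range K, c k * hv q N k m| ^ q * (2 ^ N)⁻¹ := by
    intro c
    have e1 : ∑ k ∈ Finset.range K, c k • Hr p k =
        part p N S (fun m => ∑ k ∈ Finset.range K, c k * hv q N k m) := by
      rw [← sum_part]
      refine Finset.sum_congr rfl fun k hk => ?_
      rw [Finset.mem_range] at hk
      congr 1
      exact Hr_part (hlN k hk)
    rw [e1, part_norm hp]
  set x : ℝ := ‖∑ k ∈ Finset.range K, t k • h k‖ with hx
  set y : ℝ := ‖∑ k ∈ Finset.range K, t k • Hr p k‖ with hy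
  have hx0 : 0 ≤ x := norm_nonneg _
  have hy0 : 0 ≤ y := norm_nonneg _
  set fA : (Fin K → ℝ) → ℝ := fun θ => ‖∑ k ∈ Finset.range K, (ex θ k * t k) • h k‖ with hfA
  set fB : (Fin (K + 1) → ℝ) → ℝ := fun θ =>
    ‖∑ k ∈ Finset.range K, (ex θ (lvi k) * t k) • Hr p k‖ with hfB
  set A := ∑ θ ∈ signs K, fA θ ^ q with hAd
  set B := ∑ θ ∈ signs (K + 1), fB θ ^ q with hBd
  have hsq : ∀ z : ℝ, (z = 1 ∨ z = -1) → z * z = 1 := by
    intro z hz; rcases hz with h | h <;> rw [h] <;> norm_num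
  have HA := avg_bound (signs K) fA (card_signs K) hC hq0 hx0 (fun _ _ => norm_nonneg _)
    (fun θ hθ => by
      have h1 := hA1 a M ha hlM hMM K (fun k => ex θ k * t k) (ex θ) (ex_sign (mem_signs.1 hθ))
      have h2 : ∀ k, ex θ k * (ex θ k * t k) = t k := fun k => by
        rw [← mul_assoc, hsq _ (ex_sign (mem_signs.1 hθ) k), one_mul]
      simp only [h2] at h1
      exact h1)
    (fun θ hθ => hA1 a M ha hlM hMM K t (ex θ) (ex_sign (mem_signs.1 hθ)))
  have HB := avg_bound (signs (K + 1)) fB (card_signs (K + 1)) hC hq0 hy0 (fun _ _ => norm_nonneg _)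
    (fun θ hθ => by
      have h1 := hA2 K (fun k => ex θ (lvi k) * t k) (ex θ) (ex_sign (mem_signs.1 hθ))
      have h2 : ∀ k, ex θ (lvi k) * (ex θ (lvi k) * t k) = t k := fun k => by
        rw [← mul_assoc, hsq _ (ex_sign (mem_signs.1 hθ) _), one_mul]
      simp only [h2] at h1
      exact h1)
    (fun θ hθ => hA2 K t (ex θ) (ex_sign (mem_signs.1 hθ)))
  set Φ : ℤ → ℝ := fun m => ∑ θ ∈ signs K, |∑ k : Fin K, θ k * (t k * e k m)| ^ q with hΦ
  set P := ∑ m ∈ S, Φ m * (2 ^ N)⁻¹ with hP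
  have hlvi : ∀ k : Fin K, lvi k < K + 1 := fun k => by
    rw [lvi]
    split_ifs with h0
    · omega
    · have := Nat.log_le_self 2 (k : ℕ)
      have h3 : lv k < (k : ℕ) + 1 := by rw [lv]; omega
      have h4 : 2 ^ lv k ≤ (k : ℕ) := Nat.pow_log_le_self 2 h0
      have h5 : lv k < 2 ^ lv k := Nat.lt_two_pow_self
      have := k.2
      omega
  have E1 : 2 ^ (K + 1) * P = 2 ^ K * B := by
    have e1 : B = ∑ m ∈ S, (∑ θ ∈ signs (K + 1),
        |∑ k : Fin K, θ ⟨lvi k, hlvi k⟩ * (t k * hv q N k m)| ^ q) * (2 ^ N)⁻¹ := by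
      rw [hBd]
      simp only [hfB]
      simp only [F2]
      rw [Finset.sum_comm]
      refine Finset.sum_congr rfl fun m _ => ?_
      rw [Finset.sum_mul]
      refine Finset.sum_congr rfl fun θ _ => ?_
      congr 3
      rw [Finset.sum_range]
      refine Finset.sum_congr rfl fun k _ => ?_
      rw [mul_assoc]
      congr 1
      rw [ex, dif_pos (hlvi k)]
    rw [e1, hP, Finset.mul_sum, Finset.mul_sum]
    refine Finset.sum_congr rfl fun m hm => ?_
    have h1 := hB2 q K (K + 1) (fun k => ⟨lvi k, hlvi k⟩) (fun k => t k * e k m)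
      (fun k => t k * hv q N k m)
      (fun k => by rw [abs_mul, abs_mul, hv_abs (hlN k k.2) hm, he, abs_of_nonneg (ev_nonneg _ _ _ _)])
      (fun k k' hne hl => by
        have h2 : lvi (k : ℕ) = lvi (k' : ℕ) := by simpa using hl
        rcases ev_level (q := q) (N := N) (fun h => hne (Fin.ext h)) h2 m with h3 | h3
        · left; rw [he, h3, mul_zero]
        · right; rw [he, h3, mul_zero])
    rw [← mul_assoc, ← mul_assoc, h1]
  have eA : A = ∑ m ∈ S, (∑ θ ∈ signs K, (|∑ k : Fin K, θ k * (cs k m * (t k * e k m))| ^ q +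
        |∑ k : Fin K, θ k * (sn k m * (t k * e k m))| ^ q)) * (2 ^ N)⁻¹ := by
    rw [hAd]
    simp only [hfA]
    simp only [F1]
    rw [Finset.sum_comm]
    refine Finset.sum_congr rfl fun m _ => ?_
    rw [Finset.sum_mul]
    refine Finset.sum_congr rfl fun θ _ => ?_
    rw [Finset.sum_range, Finset.sum_range]
    congr 4
    · refine Finset.sum_congr rfl fun k _ => ?_
      rw [ex_fin]; ring
    · refine Finset.sum_congr rfl fun k _ => ?_
      rw [ex_fin]; ring
  have E2 : A ≤ 2 * P := by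
    rw [eA, hP, Finset.mul_sum]
    refine Finset.sum_le_sum fun m _ => ?_
    rw [← mul_assoc]
    refine mul_le_mul_of_nonneg_right ?_ h2N.le
    rw [Finset.sum_add_distrib]
    have h1 := hB1 q hq1.le K (fun k => t k * e k m) (fun k => cs k m) (fun k => hcs1 k m)
    have h2 := hB1 q hq1.le K (fun k => t k * e k m) (fun k => sn k m) (fun k => hsn1 k m)
    simp only [hΦ]
    linarith
  have E3 : P ≤ 2 * A := by
    rw [eA, hP, Finset.mul_sum]
    refine Finset.sum_le_sum fun m _ => ?_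
    rw [← mul_assoc]
    refine mul_le_mul_of_nonneg_right ?_ h2N.le
    have h1 := hB1 q hq1.le K (fun k => cs k m * (t k * e k m)) (fun k => cs k m) (fun k => hcs1 k m)
    have h2 := hB1 q hq1.le K (fun k => sn k m * (t k * e k m)) (fun k => sn k m) (fun k => hsn1 k m)
    have h3 : Φ m ≤ ∑ θ ∈ signs K, 2 * (|∑ k : Fin K, θ k * (cs k m * (cs k m * (t k * e k m)))| ^ q +
        |∑ k : Fin K, θ k * (sn k m * (sn k m * (t k * e k m)))| ^ q) := by
      simp only [hΦ]
      refine Finset.sum_le_sum fun θ _ => ?_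
      have h4 : ∑ k : Fin K, θ k * (t k * e k m) =
          ∑ k : Fin K, θ k * (cs k m * (cs k m * (t k * e k m))) +
          ∑ k : Fin K, θ k * (sn k m * (sn k m * (t k * e k m))) := by
        rw [← Finset.sum_add_distrib]
        refine Finset.sum_congr rfl fun k _ => ?_
        have := hcssn k m
        calc θ k * (t k * e k m) = θ k * (t k * e k m) * 1 := by ring
          _ = θ k * (t k * e k m) * (cs k m * cs k m + sn k m * sn k m) := by rw [this]
          _ = _ := by ring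
      rw [h4]
      have h5 := rpow_add_le'' hq1.le
        (abs_nonneg (∑ k : Fin K, θ k * (cs k m * (cs k m * (t k * e k m)))))
        (abs_nonneg (∑ k : Fin K, θ k * (sn k m * (sn k m * (t k * e k m)))))
      have h6 : (2 : ℝ) ^ (q - 1) ≤ 2 := by
        calc (2 : ℝ) ^ (q - 1) ≤ 2 ^ (1 : ℝ) :=
              Real.rpow_le_rpow_of_exponent_le (by norm_num) (by linarith)
          _ = 2 := Real.rpow_one 2
      refine (Real.rpow_le_rpow (abs_nonneg _) (abs_add_le _ _) hq0.le).trans (h5.trans ?_)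
      gcongr
    refine h3.trans ?_
    rw [← Finset.mul_sum]
    refine mul_le_mul_of_nonneg_left ?_ (by norm_num)
    rw [Finset.sum_add_distrib, Finset.sum_add_distrib]
    exact add_le_add h1 h2
  have hK : (0 : ℝ) < 2 ^ K := by positivity
  have hP' : B = 2 * P := by
    rw [pow_succ] at E1
    have : (2 : ℝ) ^ K * (2 * P) = 2 ^ K * B := by rw [← E1]; ring
    exact (mul_left_cancel₀ hK.ne' this).symm
  have hCq : 0 < C ^ q := by positivity
  have hxy : x ^ q ≤ 2 * (C ^ q * C ^ q) * y ^ q := by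
    have h1 := HA.1
    have h2 := HB.2
    rw [pow_succ] at h2
    have h3 : 2 ^ K * x ^ q ≤ 2 ^ K * (2 * (C ^ q * C ^ q) * y ^ q) := by
      calc _ ≤ C ^ q * A := h1
        _ ≤ C ^ q * (2 * P) := by gcongr
        _ = C ^ q * B := by rw [hP']
        _ ≤ C ^ q * (2 ^ K * 2 * (C ^ q * y ^ q)) := by gcongr
        _ = _ := by ring
    exact le_of_mul_le_mul_left h3 hK
  have hyx : y ^ q ≤ 2 * (C ^ q * C ^ q) * x ^ q := by
    have h1 := HB.1
    have h2 := HA.2
    rw [pow_succ] at h1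
    have h3 : 2 ^ K * 2 * y ^ q ≤ 2 ^ K * 2 * (2 * (C ^ q * C ^ q) * x ^ q) := by
      calc _ ≤ C ^ q * B := h1
        _ = C ^ q * (2 * P) := by rw [hP']
        _ ≤ C ^ q * (2 * (2 * A)) := by gcongr
        _ ≤ C ^ q * (2 * (2 * (2 ^ K * (C ^ q * x ^ q)))) := by gcongr
        _ = _ := by ring
    exact le_of_mul_le_mul_left h3 (by positivity)
  have h2q : (2 : ℝ) ≤ 2 ^ q := by
    calc (2 : ℝ) = 2 ^ (1 : ℝ) := (Real.rpow_one 2).symm
      _ ≤ 2 ^ q := Real.rpow_le_rpow_of_exponent_le (by norm_num) hq1.le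
  have hroot : ∀ u w : ℝ, 0 ≤ u → 0 ≤ w → u ^ q ≤ 2 * (C ^ q * C ^ q) * w ^ q → u ≤ 2 * C ^ 2 * w := by
    intro u w hu hw huw
    have h1 : (2 * C ^ 2 * w) ^ q = 2 ^ q * (C ^ q * C ^ q) * w ^ q := by
      rw [Real.mul_rpow (by positivity) hw, Real.mul_rpow (by norm_num) (by positivity), sq,
        Real.mul_rpow hC.le hC.le]
    refine (Real.rpow_le_rpow_iff hu (by positivity) hq0).1 ?_
    rw [h1]
    refine huw.trans ?_
    gcongr
  constructor
  · have := hroot y x hy0 hx0 hyx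
    rw [div_mul_eq_mul_div, one_mul, div_le_iff₀ (by positivity)]
    linarith
  · exact hroot x y hx0 hy0 hxy

end Pool.Agent.W692.TB
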