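import Pool.Agent.W692.TB.HC

open scoped BigOperators Topology ENNReal NNReal
open Filter Set MeasureTheory H316F

namespace Pool.Agent.W692.TB

variable {p : ℝ≥0∞} [hp1 : Fact (1 ≤ p)]

/-- telescoping -/
theorem TF_tel (F : Finset ℕ) (y : X p) {lo hi : ℕ} (hlh : lo ≤ hi)
    (h0 : ∀ n ≤ lo, Sx p n y = 0) (h1 : ∀ n, hi ≤ n → Sx p n y = y) :
    (Finset.Ico lo hi ⊆ F → TF p F y = y) ∧ (Disjoint F (Finset.Ico lo hi) → TF p F y = 0) := by
  have hz : ∀ n, n ∉ Finset.Ico lo hi → Sx p (n + 1) y - Sx p n y = 0 := by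
    intro n hn
    rw [Finset.mem_Ico] at hn
    by_cases h : n < lo
    · rw [h0 _ (by omega), h0 _ h.le, sub_zero]
    · have h2 : hi ≤ n := by omega
      rw [h1 _ (by omega), h1 _ h2, sub_self]
  constructor
  · intro hsub
    rw [TF_apply, ← Finset.sum_subset hsub (fun n _ hn => hz n hn),
      Finset.sum_Ico_sub (fun n => Sx p n y) hlh, h1 _ le_rfl, h0 _ le_rfl, sub_zero]
  · intro hd
    rw [TF_apply]
    exact Finset.sum_eq_zero fun n hn => hz n (Finset.disjoint_left.1 hd hn)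

theorem cInt_iter (k n : ℕ) (j : ℤ) (x : X p) :
    cInt p n j x = ∑ m ∈ Finset.Ico (j * 2 ^ k) ((j + 1) * 2 ^ k), cInt p (n + k) m x := by
  induction k generalizing n j with
  | zero =>
    have : Finset.Ico j (j + 1) = {j} := by
      ext x; rw [Finset.mem_Ico, Finset.mem_singleton]; omega
    simp [this]
  | succ k ih =>
    rw [cInt_split, ih (n + 1) (2 * j), ih (n + 1) (2 * j + 1)]
    have e1 : n + 1 + k = n + (k + 1) := by ring
    rw [e1]
    have e2 : 2 * j * 2 ^ k = j * 2 ^ (k + 1) := by rw [pow_succ]; ring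
    have e3 : (2 * j + 1) * 2 ^ k = j * 2 ^ (k + 1) + 2 ^ k := by rw [pow_succ]; ring
    have e4 : (2 * j + 1 + 1) * 2 ^ k = (j + 1) * 2 ^ (k + 1) := by rw [pow_succ]; ring
    rw [e2, e3, e4]
    have h0 : (0 : ℤ) < 2 ^ k := by positivity
    have e5 : (j + 1) * 2 ^ (k + 1) = j * 2 ^ (k + 1) + 2 ^ k + 2 ^ k := by rw [pow_succ]; ring
    rw [e5, ← Finset.sum_union (Finset.Ico_disjoint_Ico_consecutive _ _ _),
      Finset.Ico_union_Ico_eq_Ico (by omega) (by omega)]

theorem cInt_part (M : ℕ) (s : Finset ℤ) (g : ℤ → ℝ) (m : ℤ) :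
    cInt p M m (part p M s g) = if m ∈ s then g m * (2 ^ M)⁻¹ else 0 := by
  rw [part, map_sum]
  simp only [map_smul, cInt_ind, smul_eq_mul, mul_ite, mul_zero]
  rw [Finset.sum_ite_eq]

/-- the averages of level `M - a` vanish -/
theorem Sx_part_zero {l i a M : ℕ} (hla : l + a ≤ M) (g : ℤ → ℝ)
    (hg : ∀ j : ℤ, ∑ m ∈ Finset.Ico (j * 2 ^ a) ((j + 1) * 2 ^ a), g m = 0) :
    Sx p (M - a) (part p M (J l i M) g) = 0 := by
  rw [Sx, Ex_apply]
  refine Finset.sum_eq_zero fun j _ => ?_
  have h1 : cInt p (M - a) j (part p M (J l i M) g) = 0 := by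
    rw [cInt_iter a (M - a) j, show M - a + a = M by omega]
    simp only [cInt_part]
    have h2a : (0 : ℤ) < 2 ^ a := by positivity
    have e1 : (2 : ℤ) ^ (M - l) = 2 ^ (M - l - a) * 2 ^ a := by rw [← pow_add]; congr 1; omega
    set u : ℤ := (i : ℤ) * 2 ^ (M - l - a) with hu
    set w : ℤ := ((i : ℤ) + 1) * 2 ^ (M - l - a) with hw
    have e2 : J l i M = Finset.Ico (u * 2 ^ a) (w * 2 ^ a) := by
      rw [J, e1, hu, hw]
      congr 1 <;> ring
    rw [e2]
    by_cases h : u ≤ j ∧ j < w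
    · have h3 : ∀ m ∈ Finset.Ico (j * 2 ^ a) ((j + 1) * 2 ^ a), m ∈ Finset.Ico (u * 2 ^ a) (w * 2 ^ a) := by
        intro m hm
        rw [Finset.mem_Ico] at *
        constructor
        · exact (mul_le_mul_of_nonneg_right h.1 h2a.le).trans hm.1
        · exact lt_of_lt_of_le hm.2 (mul_le_mul_of_nonneg_right (by omega) h2a.le)
      rw [Finset.sum_congr rfl (fun m hm => if_pos (h3 m hm)), ← Finset.sum_mul, hg, zero_mul]
    · refine Finset.sum_eq_zero fun m hm => ?_
      rw [if_neg]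
      intro hm2
      rw [Finset.mem_Ico] at hm hm2
      apply h
      constructor
      · by_contra h4
        push Not at h4
        have : (j + 1) * 2 ^ a ≤ u * 2 ^ a := mul_le_mul_of_nonneg_right (by omega) h2a.le
        omega
      · by_contra h4
        push Not at h4
        have : w * 2 ^ a ≤ j * 2 ^ a := mul_le_mul_of_nonneg_right h4 h2a.le
        omega
  rw [h1, mul_zero, zero_smul]

theorem ec_add (a : ℕ) (m s : ℤ) : ec a (m + s) = ec a m * ec a s := by
  rw [ec, ec, ec, ← Complex.exp_add]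
  congr 1
  push_cast
  ring

theorem ec_period (a : ℕ) (j : ℤ) : ec a (j * 2 ^ a) = 1 := by
  rw [ec]
  have h2 : (2 : ℂ) ^ a ≠ 0 := pow_ne_zero _ two_ne_zero
  have : Complex.I * (2 * Real.pi * ((j * 2 ^ a : ℤ) : ℂ) / 2 ^ a) = (j : ℂ) * (2 * Real.pi * Complex.I) := by
    push_cast
    field_simp
  rw [this]
  exact Complex.exp_int_mul_two_pi_mul_I j

theorem ec_nat (a k : ℕ) : ec a k = (ec a 1) ^ k := by
  rw [ec, ec, ← Complex.exp_nat_mul]
  congr 1
  push_cast
  ring

theorem ec_sum {a : ℕ} (ha : 1 ≤ a) (j : ℤ) :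
    ∑ m ∈ Finset.Ico (j * 2 ^ a) ((j + 1) * 2 ^ a), ec a m = 0 := by
  have h1 : ∑ m ∈ Finset.Ico (j * 2 ^ a) ((j + 1) * 2 ^ a), ec a m =
      ∑ k ∈ Finset.range (2 ^ a), ec a (j * 2 ^ a + k) := by
    refine Finset.sum_nbij' (fun m => (m - j * 2 ^ a).toNat) (fun k => j * 2 ^ a + k) ?_ ?_ ?_ ?_ ?_
    · intro m hm
      rw [Finset.mem_Ico] at hm
      rw [Finset.mem_range]
      have : (m - j * 2 ^ a) < 2 ^ a := by linarith [hm.2]
      zify
      rw [Int.toNat_of_nonneg (by linarith [hm.1])]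
      exact this
    · intro k hk
      rw [Finset.mem_range] at hk
      have hk' : (k : ℤ) < 2 ^ a := by exact_mod_cast hk
      rw [Finset.mem_Ico]
      constructor <;> linarith [Int.natCast_nonneg k]
    · intro m hm
      rw [Finset.mem_Ico] at hm
      rw [Int.toNat_of_nonneg (by linarith [hm.1])]
      ring
    · intro k _
      simp
    · intro m hm
      rw [Finset.mem_Ico] at hm
      rw [Int.toNat_of_nonneg (by linarith [hm.1])]
      congr 1
      ring
  rw [h1]
  have h2 : ∀ k : ℕ, ec a (j * 2 ^ a + k) = (ec a 1) ^ k := by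
    intro k
    rw [ec_add, ec_period, one_mul, ec_nat]
  simp only [h2]
  have hprim : IsPrimitiveRoot (ec a 1) (2 ^ a) := by
    have := Complex.isPrimitiveRoot_exp (2 ^ a) (by positivity)
    convert this using 1
    rw [ec]
    congr 1
    push_cast
    ring
  exact hprim.geom_sum_eq_zero (Nat.one_lt_two_pow (by omega))

/-- the oscillating function `h = hc 1` -/
theorem hc_one_eq {l i a M : ℕ} (hla : l + a ≤ M) : hc p l i a M 1 =
    part p M (J l i M) (fun m => (2 : ℝ) ^ ((l : ℝ) / p.toReal) * (ec a m).re) +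
    part p M (J l (i + 2 ^ l) M) (fun m => (2 : ℝ) ^ ((l : ℝ) / p.toReal) * (ec a m).im) := by
  rw [hc_eq]
  simp only [map_one, mul_one]
  congr 1
  have e0 : (((2 : ℤ) ^ M : ℤ) : ℝ) / 2 ^ M = 1 := by
    push_cast
    exact div_self (by positivity)
  have h1 := Tr_part (p := p) M ((i : ℤ) * 2 ^ (M - l)) (((i : ℤ) + 1) * 2 ^ (M - l)) (2 ^ M)
    (fun m => (2 : ℝ) ^ ((l : ℝ) / p.toReal) * (ec a m).im)
  rw [e0] at h1
  rw [J, h1]
  have e1 : (2 : ℤ) ^ M = 2 ^ l * 2 ^ (M - l) := by rw [← pow_add]; congr 1; omega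
  have e2 : ∀ m : ℤ, ec a (m - 2 ^ M) = ec a m := by
    intro m
    have e3 : (2 : ℤ) ^ M = 2 ^ (M - a) * 2 ^ a := by rw [← pow_add]; congr 1; omega
    have e4 : m - 2 ^ M = m + (-(2 ^ (M - a)) : ℤ) * 2 ^ a := by rw [e3]; ring
    rw [e4, ec_add, ec_period, mul_one]
  simp only [e2]
  congr 1
  rw [J, e1]
  congr 1 <;> push_cast <;> ring

theorem Sx_part_high {l i M n : ℕ} (hi : i < 2 * 2 ^ l) (hl : l ≤ M) (hM : 1 ≤ M) (hn : M ≤ n) (g : ℤ → ℝ) :
    Sx p n (part p M (J l i M) g) = part p M (J l i M) g := by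
  rw [part, map_sum]
  refine Finset.sum_congr rfl fun m hm => ?_
  rw [map_smul]
  congr 1
  obtain ⟨k, rfl⟩ := Nat.exists_eq_add_of_le hn
  refine Sx_ind k M m ?_
  rw [J, Finset.mem_Ico] at hm
  rw [H316F.inner, Finset.mem_Ico]
  have h1 : (0 : ℤ) < 2 ^ (M - l) := by positivity
  have h2 : (i : ℤ) + 1 ≤ 2 * 2 ^ l := by exact_mod_cast hi
  have h3 : (2 : ℤ) ^ l * 2 ^ (M - l) = 2 ^ M := by rw [← pow_add]; congr 1; omega
  have h4 : ((i : ℤ) + 1) * 2 ^ (M - l) ≤ 2 * 2 ^ M := by
    calc _ ≤ (2 * 2 ^ l) * 2 ^ (M - l) := mul_le_mul_of_nonneg_right h2 h1.le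
      _ = _ := by rw [← h3]; ring
  have h5 : (2 : ℤ) * 2 ^ M ≤ 2 ^ (M + M) := by
    rw [pow_add]
    have : (2 : ℤ) ≤ 2 ^ M := by
      calc (2 : ℤ) = 2 ^ 1 := by norm_num
        _ ≤ 2 ^ M := pow_le_pow_right₀ (by norm_num) hM
    nlinarith
  have h6 : (0 : ℤ) ≤ (i : ℤ) * 2 ^ (M - l) := by positivity
  have h7 : (0 : ℤ) < 2 ^ (M + M) := by positivity
  constructor
  · linarith [hm.1]
  · linarith [hm.2]

theorem hc_low {l i a M : ℕ} (ha : 1 ≤ a) (hla : l + a ≤ M) {n : ℕ} (hn : n ≤ M - a) :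
    Sx p n (hc p l i a M 1) = 0 := by
  have h1 : Sx p (M - a) (hc p l i a M 1) = 0 := by
    rw [hc_one_eq hla, map_add, Sx_part_zero hla, Sx_part_zero hla, add_zero]
    · intro j
      rw [← Finset.mul_sum]
      have := congrArg Complex.im (ec_sum ha j)
      rw [Complex.im_sum] at this
      rw [this]; simp
    · intro j
      rw [← Finset.mul_sum]
      have := congrArg Complex.re (ec_sum ha j)
      rw [Complex.re_sum] at this
      rw [this]; simp
  rw [← Sx_Sx hn, h1, map_zero]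

theorem hc_high {l i a M : ℕ} (ha : 1 ≤ a) (hla : l + a ≤ M) (hi : i < 2 ^ l) {n : ℕ} (hn : M ≤ n) :
    Sx p n (hc p l i a M 1) = hc p l i a M 1 := by
  rw [hc_one_eq hla, map_add, Sx_part_high (by omega) (by omega) (by omega) hn,
    Sx_part_high (by omega) (by omega) (by omega) hn]

theorem ix_lt (k : ℕ) : ix k < 2 ^ lv k := by
  rw [ix, lv]
  rcases Nat.eq_zero_or_pos k with rfl | hk
  · simp
  · have := Nat.lt_pow_succ_log_self (b := 2) (by norm_num) k
    rw [pow_succ] at this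
    omega

theorem Hr_zero_Sx (n : ℕ) : Sx p n (Hr p 0) = Hr p 0 := by
  rw [Hr, if_pos rfl]
  have := Sx_ind (p := p) n 0 0 (by rw [H316F.inner, Finset.mem_Ico]; simp)
  simpa using this

theorem Hr_high {k : ℕ} (hk : k ≠ 0) {n : ℕ} (hn : lv k + 1 ≤ n) : Sx p n (Hr p k) = Hr p k := by
  rw [Hr, if_neg hk, map_smul, map_sub]
  obtain ⟨d, rfl⟩ := Nat.exists_eq_add_of_le hn
  have h1 := ix_lt k
  have h2 : (ix k : ℤ) + 1 ≤ 2 ^ lv k := by exact_mod_cast h1
  have h3 : (2 : ℤ) ^ (lv k + 1 + (lv k + 1)) = 4 * 2 ^ lv k * 2 ^ lv k := by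
    rw [show lv k + 1 + (lv k + 1) = lv k + lv k + 2 by ring, pow_add, pow_add]; ring
  have h4 : (1 : ℤ) ≤ 2 ^ lv k := one_le_pow₀ (by norm_num)
  rw [Sx_ind, Sx_ind]
  · rw [H316F.inner, Finset.mem_Ico, h3]
    constructor
    · have : (0 : ℤ) ≤ ix k := Int.natCast_nonneg _
      nlinarith
    · nlinarith
  · rw [H316F.inner, Finset.mem_Ico, h3]
    constructor
    · have : (0 : ℤ) ≤ ix k := Int.natCast_nonneg _
      nlinarith
    · nlinarith

theorem Hr_low {k : ℕ} (hk : k ≠ 0) {n : ℕ} (hn : n ≤ lv k) : Sx p n (Hr p k) = 0 := by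
  have h1 : Sx p (lv k) (Hr p k) = 0 := by
    rw [Sx, Ex_apply]
    refine Finset.sum_eq_zero fun j _ => ?_
    have h2 : cInt p (lv k) j (Hr p k) = 0 := by
      have hs : ∀ m : ℤ, cInt p (lv k) j (ind p (lv k + 1) m) =
          (if 2 * j = m then (2 ^ (lv k + 1))⁻¹ else 0) +
            (if 2 * j + 1 = m then (2 ^ (lv k + 1))⁻¹ else 0) := by
        intro m
        rw [cInt_split (lv k) j, cInt_ind, cInt_ind]
      rw [Hr, if_neg hk, map_smul, map_sub, hs, hs]
      by_cases h : j = ix k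
      · subst h
        simp
      · have e1 : ¬ (2 * j = 2 * (ix k : ℤ)) := by omega
        have e2 : ¬ (2 * j + 1 = 2 * (ix k : ℤ)) := by omega
        have e3 : ¬ (2 * j = 2 * (ix k : ℤ) + 1) := by omega
        have e4 : ¬ (2 * j + 1 = 2 * (ix k : ℤ) + 1) := by omega
        rw [if_neg e1, if_neg e2, if_neg e3, if_neg e4]
        simp
    rw [h2, mul_zero, zero_smul]
  rw [← Sx_Sx hn, h1, map_zero]

theorem lv_lt {k K : ℕ} (h : k < K) : lv k < K :=
  lt_of_le_of_lt (Nat.log_le_self 2 k) h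

theorem arA : S_arA := by
  intro p _ h1p h2p
  have hp : p ≠ ⊤ := ne_top_of_lt h2p
  obtain ⟨C0, hC0, hTF⟩ := TF_all hp h1p
  refine ⟨2 * C0 + 1, by positivity, ?_, ?_⟩
  · intro a M ha hlM hMM K t θ hθ
    classical
    set h : ℕ → X p := fun k => hc p (lv k) (ix k) (a k) (M k) 1 with hh
    have hlow : ∀ k, ∀ n ≤ M k - a k, Sx p n (h k) = 0 := fun k n hn => hc_low (ha k) (hlM k) hn
    have hhigh : ∀ k, ∀ n, M k ≤ n → Sx p n (h k) = h k := fun k n hn =>
      hc_high (ha k) (hlM k) (ix_lt k) hn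
    have hmono : Monotone M := monotone_nat_of_le_succ fun k => by have := hMM k; omega
    have hdis : ∀ k k', k < k' → M k ≤ M k' - a k' := by
      intro k k' hk
      obtain ⟨d, rfl⟩ := Nat.exists_eq_add_of_lt hk
      have h1 : M k ≤ M (k + d) := hmono (by omega)
      have h2 := hMM (k + d)
      omega
    have hIco : ∀ k k', k ≠ k' → Disjoint (Finset.Ico (M k - a k) (M k)) (Finset.Ico (M k' - a k') (M k')) := by
      intro k k' hk
      rw [Finset.disjoint_left]
      intro n h1 h2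
      rw [Finset.mem_Ico] at h1 h2
      rcases lt_or_gt_of_ne hk with h | h
      · have := hdis _ _ h; omega
      · have := hdis _ _ h; omega
    have hkey : ∀ S : Finset ℕ, ∀ k, TF p (S.biUnion fun k => Finset.Ico (M k - a k) (M k)) (h k) =
        if k ∈ S then h k else 0 := by
      intro S k
      have h1 := TF_tel (S.biUnion fun k => Finset.Ico (M k - a k) (M k)) (h k)
        (show M k - a k ≤ M k by omega) (hlow k) (hhigh k)
      split_ifs with hk
      · exact h1.1 (Finset.subset_biUnion_of_mem (fun k => Finset.Ico (M k - a k) (M k)) hk)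
      · refine h1.2 ?_
        rw [Finset.disjoint_biUnion_left]
        intro k' hk'
        exact hIco _ _ (fun e => hk (e ▸ hk'))
    set x : X p := ∑ k ∈ Finset.range K, t k • h k with hx
    set Sp := (Finset.range K).filter (fun k => θ k = 1) with hSp
    set Sm := (Finset.range K).filter (fun k => ¬ θ k = 1) with hSm
    have hTx : ∀ S : Finset ℕ, TF p (S.biUnion fun k => Finset.Ico (M k - a k) (M k)) x =
        ∑ k ∈ Finset.range K, (if k ∈ S then t k else 0) • h k := by
      intro S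
      rw [hx, map_sum]
      refine Finset.sum_congr rfl fun k _ => ?_
      rw [map_smul, hkey]
      split_ifs <;> simp
    have e1 : ∑ k ∈ Finset.range K, (θ k * t k) • h k =
        TF p (Sp.biUnion fun k => Finset.Ico (M k - a k) (M k)) x -
        TF p (Sm.biUnion fun k => Finset.Ico (M k - a k) (M k)) x := by
      rw [hTx, hTx, ← Finset.sum_sub_distrib]
      refine Finset.sum_congr rfl fun k hk => ?_
      rw [← sub_smul]
      congr 1
      rcases hθ k with h1 | h1
      · have h2 : k ∈ Sp := by rw [hSp, Finset.mem_filter]; exact ⟨hk, h1⟩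
        have h3 : k ∉ Sm := by rw [hSm, Finset.mem_filter]; exact fun h => h.2 h1
        rw [if_pos h2, if_neg h3, h1]; ring
      · have h2 : k ∉ Sp := by rw [hSp, Finset.mem_filter, h1]; norm_num
        have h3 : k ∈ Sm := by rw [hSm, Finset.mem_filter, h1]; exact ⟨hk, by norm_num⟩
        rw [if_neg h2, if_pos h3, h1]; ring
    rw [e1]
    refine (norm_sub_le _ _).trans ?_
    have h1 := hTF (Sp.biUnion fun k => Finset.Ico (M k - a k) (M k)) x
    have h2 := hTF (Sm.biUnion fun k => Finset.Ico (M k - a k) (M k)) x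
    have h3 := norm_nonneg x
    linarith
  · intro K t θ hθ
    classical
    set x : X p := ∑ k ∈ Finset.range K, t k • Hr p k with hx
    have hkey : ∀ F : Finset ℕ, ∀ k, TF p F (Hr p k) = if k ≠ 0 ∧ lv k ∈ F then Hr p k else 0 := by
      intro F k
      by_cases hk : k = 0
      · subst hk
        rw [if_neg (by simp), TF_apply]
        exact Finset.sum_eq_zero fun n _ => by rw [Hr_zero_Sx, Hr_zero_Sx, sub_self]
      · have h1 := TF_tel F (Hr p k) (show lv k ≤ lv k + 1 by omega) (fun n hn => Hr_low hk hn)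
          (fun n hn => Hr_high hk hn)
        split_ifs with h2
        · refine h1.1 ?_
          intro n hn
          rw [Finset.mem_Ico] at hn
          have : n = lv k := by omega
          rw [this]; exact h2.2
        · refine h1.2 ?_
          rw [Finset.disjoint_left]
          intro n hn hn2
          rw [Finset.mem_Ico] at hn2
          have : n = lv k := by omega
          exact h2 ⟨hk, this ▸ hn⟩
    have hS0 : Sx p 0 x = ∑ k ∈ Finset.range K, (if k = 0 then t k else 0) • Hr p k := by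
      rw [hx, map_sum]
      refine Finset.sum_congr rfl fun k _ => ?_
      rw [map_smul]
      by_cases hk : k = 0
      · subst hk; rw [Hr_zero_Sx, if_pos rfl]
      · rw [Hr_low hk (Nat.zero_le _), if_neg hk]; simp
    have hTx : ∀ F : Finset ℕ, TF p F x =
        ∑ k ∈ Finset.range K, (if k ≠ 0 ∧ lv k ∈ F then t k else 0) • Hr p k := by
      intro F
      rw [hx, map_sum]
      refine Finset.sum_congr rfl fun k _ => ?_
      rw [map_smul, hkey]
      split_ifs <;> simp
    set Sp := (Finset.range K).filter (fun l => θ (l + 1) = 1) with hSp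
    set Sm := (Finset.range K).filter (fun l => ¬ θ (l + 1) = 1) with hSm
    have e1 : ∑ k ∈ Finset.range K, (θ (lvi k) * t k) • Hr p k =
        θ 0 • Sx p 0 x + (TF p Sp x - TF p Sm x) := by
      rw [hS0, hTx, hTx, Finset.smul_sum, ← Finset.sum_sub_distrib, ← Finset.sum_add_distrib]
      refine Finset.sum_congr rfl fun k hk => ?_
      rw [smul_smul, ← sub_smul, ← add_smul]
      congr 1
      rw [Finset.mem_range] at hk
      by_cases hk0 : k = 0
      · subst hk0
        simp [lvi]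
      · have hlk : lv k ∈ Finset.range K := Finset.mem_range.2 (lv_lt hk)
        rw [lvi, if_neg hk0, if_neg hk0, mul_zero, zero_add]
        rcases hθ (lv k + 1) with h1 | h1
        · have h2 : lv k ∈ Sp := by rw [hSp, Finset.mem_filter]; exact ⟨hlk, h1⟩
          have h3 : lv k ∉ Sm := by rw [hSm, Finset.mem_filter]; exact fun h => h.2 h1
          rw [if_pos ⟨hk0, h2⟩, if_neg (fun h => h3 h.2), h1]; ring
        · have h2 : lv k ∉ Sp := by rw [hSp, Finset.mem_filter, h1]; norm_num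
          have h3 : lv k ∈ Sm := by rw [hSm, Finset.mem_filter, h1]; exact ⟨hlk, by norm_num⟩
          rw [if_neg (fun h => h2 h.2), if_pos ⟨hk0, h3⟩, h1]; ring
    rw [e1]
    have h0 : ‖θ 0 • Sx p 0 x‖ ≤ ‖x‖ := by
      rw [norm_smul]
      have : ‖θ 0‖ = 1 := by rcases hθ 0 with h | h <;> rw [h] <;> simp
      rw [this, one_mul]
      exact Ex_le hp _ _ _
    have h1 := hTF Sp x
    have h2 := hTF Sm x
    refine (norm_add_le _ _).trans ?_
    refine (add_le_add h0 (norm_sub_le _ _)).trans ?_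
    linarith

end Pool.Agent.W692.TB
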