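import Pool.Agent.H316R4.Unc2
import Pool.Agent.H316R4.Dyad3
import Pool.Agent.H316R4.Trans

/-!
Definitions for the construction of basic sequences of translates in `L_p(ℝ)`, `1 < p < 2`, whose
span contains `L_p`. From `H316F` (starting files): `Tr ℝ p a` is the translation `f ↦ f(· - a)`,
`cell n j = [j/2^n, (j+1)/2^n)`, `ind p n j` its indicator in `Lp`, `Bx μ = [-2^μ, 2^μ)`,
`SuppOn A u`, `Sx p n` the averaging over the cells of level `n` inside `Bx n`.
-/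

open scoped BigOperators Topology ENNReal
open Filter Set MeasureTheory H316F

namespace Pool.Agent.W692.TB

/-- the space `L_p(ℝ)` -/
noncomputable abbrev X (p : ℝ≥0∞) := Lp ℝ p (volume : Measure ℝ)

/-- the space `L_p[0,1]` -/
noncomputable abbrev E (p : ℝ≥0∞) := Lp ℝ p (volume.restrict (Icc (0 : ℝ) 1))

/-- truncation of a coefficient sequence -/
def trunc (N : ℕ) (c : ℕ → ℝ) : ℕ → ℝ := fun j => if j < N then c j else 0

/-- the `i`-th coordinate of `(δ₀ + v) * c` (with `v` cut to `1 ≤ k < n`, `c` cut to `j < n`) -/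
def yco (n : ℕ) (v c : ℕ → ℝ) (i : ℕ) : ℝ :=
  ∑ j ∈ Finset.range n, (if i = j then c j else if j < i ∧ i < j + n then v (i - j) * c j else 0)

/-- the `q`-th power of the `ℓ_q` norm of `(δ₀ + v) * c` -/
noncomputable def MN (q : ℝ) (n : ℕ) (v c : ℕ → ℝ) : ℝ :=
  ∑ i ∈ Finset.range (2 * n), |yco n v c i| ^ q

/-- amplitude in the cell `D` of `∑ c_j T_{λ_j} W`, chirp phases `e^{iπ(j²-r²)/n}` -/
noncomputable def AD (n : ℕ) (c : ℕ → ℝ) (D : ℤ) : ℂ :=
  ∑ j ∈ Finset.range n, ∑ r ∈ Finset.range n,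
    if (j : ℤ) - r = D then
      (c j : ℂ) * Complex.exp (Complex.I * Real.pi * ((j : ℂ) ^ 2 - (r : ℂ) ^ 2) / n) else 0

/-- the `q`-th power of the norm of the `W` part -/
noncomputable def WN (q : ℝ) (n : ℕ) (c : ℕ → ℝ) : ℝ :=
  ∑ D ∈ Finset.Ioo (-(n : ℤ)) n, ‖AD n c D‖ ^ q

/-- the cells of level `M` inside `cell l i` -/
noncomputable def J (l i M : ℕ) : Finset ℤ :=
  Finset.Ico ((i : ℤ) * 2 ^ (M - l)) (((i : ℤ) + 1) * 2 ^ (M - l))

/-- the oscillating function: `2^{l/p}` on `cell l i`, times `Re (e^{iθ(x)} conj A)` on the first copy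
`[0,1)` and `Im (e^{iθ(x)} conj A)` on the second copy `[1,2)`, where `θ(x) = 2π⌊2^M x⌋/2^a`. -/
noncomputable def hc (p : ℝ≥0∞) (l i a M : ℕ) (A : ℂ) : X p :=
  ∑ m ∈ J l i M, ((2 : ℝ) ^ ((l : ℝ) / p.toReal) *
      (Complex.exp (Complex.I * (2 * Real.pi * m / 2 ^ a)) * (starRingEnd ℂ) A).re) • ind p M m +
  ∑ m ∈ J l i M, ((2 : ℝ) ^ ((l : ℝ) / p.toReal) *
      (Complex.exp (Complex.I * (2 * Real.pi * m / 2 ^ a)) * (starRingEnd ℂ) A).im) •
        ind p M (m + 2 ^ M)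

/-- level of the `k`-th Haar function (`k = 0` and `k = 1` have level `0`) -/
def lv (k : ℕ) : ℕ := Nat.log 2 k

/-- position of the `k`-th Haar function: `k = 2^l + i` for `k ≥ 1` -/
def ix (k : ℕ) : ℕ := k - 2 ^ lv k

/-- the normalised Haar functions on `[0,1)`, as elements of `L_p(ℝ)` -/
noncomputable def Hr (p : ℝ≥0∞) (k : ℕ) : X p :=
  if k = 0 then ind p 0 0 else
    (2 : ℝ) ^ ((lv k : ℝ) / p.toReal) •
      (ind p (lv k + 1) (2 * (ix k : ℤ)) - ind p (lv k + 1) (2 * (ix k : ℤ) + 1))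

/-- the usual inequality of a basic sequence with constant `K` -/
def KBasic {V : Type*} [NormedAddCommGroup V] [NormedSpace ℝ V] (K : ℝ) (x : ℕ → V) : Prop :=
  ∀ (c : ℕ → ℝ) (m n : ℕ), m ≤ n →
    ‖∑ i ∈ Finset.range m, c i • x i‖ ≤ K * ‖∑ i ∈ Finset.range n, c i • x i‖

/-- `(x i)` is a Schauder basis of its closed linear span. -/
def IsBasic {V : Type*} [NormedAddCommGroup V] [NormedSpace ℝ V] (x : ℕ → V) : Prop :=
  ∀ z ∈ (Submodule.span ℝ (Set.range x)).topologicalClosure,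
    ∃! a : ℕ → ℝ, Tendsto (fun n => ∑ i ∈ Finset.range n, a i • x i) atTop (𝓝 z)

end Pool.Agent.W692.TB
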