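import Pool.Agent.W692.TB.Stage1

open scoped BigOperators Topology ENNReal NNReal
open Filter Set MeasureTheory H316F

namespace Pool.Agent.W692.TB

theorem trans : S_trans := by
  intro p _ hp μ Q hQ Z G hG
  have h2 : (0 : ℝ) < 2 ^ μ := by positivity
  rw [disj_sum hp Z (fun z => {t | t - (z : ℝ) * Q ∈ Bx μ}) ?_ (fun z => Tr ℝ p (z * Q) (G z))
    (fun z hz => supp_Tr _ _ (hG z hz) _)]
  · exact Finset.sum_congr rfl fun z _ => by rw [LinearIsometry.norm_map]
  · intro i _ j _ hij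
    rw [Set.disjoint_left]
    intro t h3 h4
    rw [Set.mem_ofPred_eq, Bx, mem_Ico] at h3 h4
    rcases lt_or_gt_of_ne hij with h | h
    · have : (i : ℝ) + 1 ≤ j := by exact_mod_cast h
      nlinarith
    · have : (j : ℝ) + 1 ≤ i := by exact_mod_cast h
      nlinarith

variable {p : ℝ≥0∞} [hp1 : Fact (1 ≤ p)]

theorem Tr_ind (M : ℕ) (m s : ℤ) : Tr ℝ p ((s : ℝ) / 2 ^ M) (ind p M m) = ind p M (m + s) := by
  apply Lp.ext
  have h1 := (measurePreserving_sub_right (volume : Measure ℝ) ((s : ℝ) / 2 ^ M)).quasiMeasurePreserving.ae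
    (ind_coe (p := p) M m)
  filter_upwards [Tr_coe (𝕜 := ℝ) ((s : ℝ) / 2 ^ M) (ind p M m), h1, ind_coe (p := p) M (m + s)]
    with t h2 h3 h4
  rw [h2, h3, h4]
  have h5 : t - (s : ℝ) / 2 ^ M ∈ cell M m ↔ t ∈ cell M (m + s) := by
    rw [mem_cell, mem_cell]
    have h6 : (t - (s : ℝ) / 2 ^ M) * 2 ^ M = t * 2 ^ M - (s : ℝ) := by
      have : (0 : ℝ) < 2 ^ M := by positivity
      field_simp
    rw [h6, Int.floor_sub_intCast]
    omega
  by_cases h : t ∈ cell M (m + s)
  · rw [Set.indicator_of_mem h, Set.indicator_of_mem (h5.2 h)]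
  · rw [Set.indicator_of_notMem h, Set.indicator_of_notMem (fun h' => h (h5.1 h'))]

theorem Tr_ind_one (M : ℕ) (m : ℤ) : Tr ℝ p 1 (ind p M m) = ind p M (m + 2 ^ M) := by
  have h := Tr_ind (p := p) M m (2 ^ M)
  have e : (((2 : ℤ) ^ M : ℤ) : ℝ) / 2 ^ M = 1 := by
    push_cast
    exact div_self (by positivity)
  rw [e] at h
  exact h

/-- sum of cells -/
noncomputable def part (p : ℝ≥0∞) (M : ℕ) (s : Finset ℤ) (g : ℤ → ℝ) : X p :=
  ∑ m ∈ s, g m • ind p M m

theorem part_norm (hp : p ≠ ⊤) (M : ℕ) (s : Finset ℤ) (g : ℤ → ℝ) :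
    ‖part p M s g‖ ^ p.toReal = ∑ m ∈ s, |g m| ^ p.toReal * (2 ^ M)⁻¹ := step_norm hp M s g

theorem J_sub {l i M : ℕ} (hlM : l ≤ M) (hi : i < 2 ^ l) {m : ℤ} (hm : m ∈ J l i M) :
    0 ≤ m ∧ m < 2 ^ M := by
  rw [J, Finset.mem_Ico] at hm
  have h1 : (2 : ℤ) ^ M = 2 ^ l * 2 ^ (M - l) := by rw [← pow_add]; congr 1; omega
  have h2 : (0 : ℤ) < 2 ^ (M - l) := by positivity
  have h3 : (i : ℤ) + 1 ≤ 2 ^ l := by exact_mod_cast hi
  constructor
  · refine le_trans ?_ hm.1
    positivity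
  · rw [h1]
    refine lt_of_lt_of_le hm.2 ?_
    exact mul_le_mul_of_nonneg_right h3 h2.le

theorem J_card {l i M : ℕ} : ((J l i M).card : ℝ) = 2 ^ (M - l) := by
  rw [J, Int.card_Ico]
  have h : ((i : ℤ) + 1) * 2 ^ (M - l) - (i : ℤ) * 2 ^ (M - l) = ((2 ^ (M - l) : ℕ) : ℤ) := by
    push_cast; ring
  rw [h, Int.toNat_natCast]
  push_cast
  rfl

/-- the phase of a cell -/
noncomputable def ec (a : ℕ) (m : ℤ) : ℂ := Complex.exp (Complex.I * (2 * Real.pi * m / 2 ^ a))

theorem ec_norm (a : ℕ) (m : ℤ) : ‖ec a m‖ = 1 := by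
  have e : Complex.I * (2 * Real.pi * m / 2 ^ a) = ((2 * Real.pi * m / 2 ^ a : ℝ) : ℂ) * Complex.I := by
    push_cast; ring
  rw [ec, e]
  exact Complex.norm_exp_ofReal_mul_I _

theorem ec_conj (a : ℕ) (m s : ℤ) : ec a m * (starRingEnd ℂ) (ec a s) = ec a (m - s) := by
  rw [ec, ec, ec, ← Complex.exp_conj, ← Complex.exp_add]
  congr 1
  simp only [map_mul, map_div₀, Complex.conj_I, Complex.conj_ofReal, map_pow, map_ofNat, map_intCast]
  push_cast
  ring

theorem hc_eq (l i a M : ℕ) (A : ℂ) : hc p l i a M A =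
    part p M (J l i M) (fun m => (2 : ℝ) ^ ((l : ℝ) / p.toReal) * (ec a m * (starRingEnd ℂ) A).re) +
    Tr ℝ p 1 (part p M (J l i M)
      (fun m => (2 : ℝ) ^ ((l : ℝ) / p.toReal) * (ec a m * (starRingEnd ℂ) A).im)) := by
  rw [hc, part, part, map_sum]
  congr 1
  refine Finset.sum_congr rfl fun m _ => ?_
  rw [map_smul, Tr_ind_one]
  rfl

theorem part_supp {l i M : ℕ} (hlM : l ≤ M) (hi : i < 2 ^ l) (g : ℤ → ℝ) :
    SuppOn (Ico 0 1) (part p M (J l i M) g) := by
  refine SuppOn.sum fun m hm => SuppOn.smul ?_ _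
  refine (ind_supp M m).mono ?_
  obtain ⟨h1, h2⟩ := J_sub hlM hi hm
  intro t ht
  have h3 : (0 : ℝ) < 2 ^ M := by positivity
  rw [cell, mem_Ico, div_le_iff₀ h3, lt_div_iff₀ h3] at ht
  have h4 : (0 : ℝ) ≤ m := by exact_mod_cast h1
  have h5 : (m : ℝ) + 1 ≤ 2 ^ M := by exact_mod_cast h2
  rw [mem_Ico]
  constructor
  · by_contra h; push Not at h; nlinarith [ht.1]
  · by_contra h; push Not at h; nlinarith [ht.2]

theorem re_im_low {q : ℝ} (hq0 : 0 < q) (hq2 : q ≤ 2) (z : ℂ) : ‖z‖ ^ q ≤ |z.re| ^ q + |z.im| ^ q := by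
  have h1 : ‖z‖ ^ q = (|z.re| ^ 2 + |z.im| ^ 2) ^ (q / 2) := by
    have h2 : ‖z‖ ^ 2 = |z.re| ^ 2 + |z.im| ^ 2 := by
      rw [sq_abs, sq_abs, Complex.sq_norm, Complex.normSq_apply]; ring
    rw [← h2, ← Real.rpow_natCast, ← Real.rpow_mul (norm_nonneg _)]
    congr 1
    push_cast
    ring
  have h2 : ∀ x : ℝ, 0 ≤ x → x ^ q = (x ^ 2) ^ (q / 2) := by
    intro x hx
    rw [← Real.rpow_natCast, ← Real.rpow_mul hx]
    congr 1
    push_cast
    ring
  rw [h1, h2 _ (abs_nonneg _), h2 _ (abs_nonneg _)]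
  exact Real.rpow_add_le_add_rpow (by positivity) (by positivity) (by positivity) (by linarith)

theorem re_im_up {q : ℝ} (hq0 : 0 < q) (z : ℂ) : |z.re| ^ q + |z.im| ^ q ≤ 2 * ‖z‖ ^ q := by
  have h1 := Real.rpow_le_rpow (abs_nonneg _) (Complex.abs_re_le_norm z) hq0.le
  have h2 := Real.rpow_le_rpow (abs_nonneg _) (Complex.abs_im_le_norm z) hq0.le
  linarith

theorem diff_norm (hp : p ≠ ⊤) (M : ℕ) (A B : Finset ℤ) (g : ℤ → ℝ) {b : ℝ} (hb : ∀ m, |g m| ≤ b) :
    ‖part p M A g - part p M B g‖ ^ p.toReal ≤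
      ((A \ B).card + (B \ A).card) * (b ^ p.toReal * (2 ^ M)⁻¹) := by
  classical
  have hq := q_ge (p := p) hp
  have e1 : part p M A g - part p M B g =
      part p M (A \ B ∪ B \ A) (fun m => if m ∈ A then g m else - g m) := by
    have hd : Disjoint (A \ B) (B \ A) := by
      rw [Finset.disjoint_left]; intro x h1 h2
      exact (Finset.mem_sdiff.1 h2).2 (Finset.mem_sdiff.1 h1).1
    unfold part
    rw [Finset.sum_union hd, ← Finset.sum_sdiff_sub_sum_sdiff, sub_eq_add_neg, ← Finset.sum_neg_distrib]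
    congr 1
    · refine Finset.sum_congr rfl fun m hm => ?_
      simp only [if_pos (Finset.mem_sdiff.1 hm).1]
    · refine Finset.sum_congr rfl fun m hm => ?_
      simp only [if_neg (Finset.mem_sdiff.1 hm).2, neg_smul]
  rw [e1, part_norm hp]
  have hb0 : 0 ≤ b := (abs_nonneg _).trans (hb 0)
  calc _ ≤ ∑ m ∈ (A \ B ∪ B \ A), b ^ p.toReal * (2 ^ M)⁻¹ := by
        refine Finset.sum_le_sum fun m _ => ?_
        gcongr
        split_ifs
        · exact hb m
        · rw [abs_neg]; exact hb m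
    _ = ((A \ B ∪ B \ A).card : ℝ) * (b ^ p.toReal * (2 ^ M)⁻¹) := by
        rw [Finset.sum_const, nsmul_eq_mul]
    _ ≤ _ := by
        gcongr
        exact_mod_cast Finset.card_union_le _ _

theorem shift_card (x y s : ℤ) :
    (((Finset.Ico (x + s) (y + s) \ Finset.Ico x y).card : ℝ) +
      ((Finset.Ico x y \ Finset.Ico (x + s) (y + s)).card : ℝ)) ≤ 2 * |(s : ℝ)| := by
  have h1 : ((Finset.Ico (x + s) (y + s) \ Finset.Ico x y).card : ℤ) ≤ |s| := by
    rcases le_or_gt 0 s with h | h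
    · have hs : Finset.Ico (x + s) (y + s) \ Finset.Ico x y ⊆ Finset.Ico y (y + s) := by
        intro z hz
        rw [Finset.mem_sdiff, Finset.mem_Ico, Finset.mem_Ico] at hz
        rw [Finset.mem_Ico]
        omega
      have := Finset.card_le_card hs
      rw [Int.card_Ico] at this
      rw [abs_of_nonneg h]
      omega
    · have hs : Finset.Ico (x + s) (y + s) \ Finset.Ico x y ⊆ Finset.Ico (x + s) x := by
        intro z hz
        rw [Finset.mem_sdiff, Finset.mem_Ico, Finset.mem_Ico] at hz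
        rw [Finset.mem_Ico]
        omega
      have := Finset.card_le_card hs
      rw [Int.card_Ico] at this
      rw [abs_of_neg h]
      omega
  have h2 : ((Finset.Ico x y \ Finset.Ico (x + s) (y + s)).card : ℤ) ≤ |s| := by
    rcases le_or_gt 0 s with h | h
    · have hs : Finset.Ico x y \ Finset.Ico (x + s) (y + s) ⊆ Finset.Ico x (x + s) := by
        intro z hz
        rw [Finset.mem_sdiff, Finset.mem_Ico, Finset.mem_Ico] at hz
        rw [Finset.mem_Ico]
        omega
      have := Finset.card_le_card hs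
      rw [Int.card_Ico] at this
      rw [abs_of_nonneg h]
      omega
    · have hs : Finset.Ico x y \ Finset.Ico (x + s) (y + s) ⊆ Finset.Ico (y + s) y := by
        intro z hz
        rw [Finset.mem_sdiff, Finset.mem_Ico, Finset.mem_Ico] at hz
        rw [Finset.mem_Ico]
        omega
      have := Finset.card_le_card hs
      rw [Int.card_Ico] at this
      rw [abs_of_neg h]
      omega
  have h3 : (((Finset.Ico (x + s) (y + s) \ Finset.Ico x y).card : ℤ) : ℝ) ≤ ((|s| : ℤ) : ℝ) := by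
    exact_mod_cast h1
  have h4 : (((Finset.Ico x y \ Finset.Ico (x + s) (y + s)).card : ℤ) : ℝ) ≤ ((|s| : ℤ) : ℝ) := by
    exact_mod_cast h2
  push_cast at h3 h4
  linarith

theorem Tr_part (M : ℕ) (x y s : ℤ) (g : ℤ → ℝ) :
    Tr ℝ p ((s : ℝ) / 2 ^ M) (part p M (Finset.Ico x y) g) =
      part p M (Finset.Ico (x + s) (y + s)) (fun m => g (m - s)) := by
  unfold part
  rw [map_sum]
  simp only [map_smul, Tr_ind]
  refine Finset.sum_nbij' (fun m => m + s) (fun m => m - s) ?_ ?_ ?_ ?_ ?_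
  · intro m hm; rw [Finset.mem_Ico] at *; omega
  · intro m hm; rw [Finset.mem_Ico] at *; omega
  · intro m _; ring
  · intro m _; ring
  · intro m _; rw [add_sub_cancel_right]

theorem hcthm : S_hc := by
  intro p _ h1p h2p l i a M hlM hi
  have hp : p ≠ ⊤ := ne_top_of_lt h2p
  have hq1 : 1 < p.toReal := by
    have := (ENNReal.toReal_lt_toReal (by norm_num) hp).2 h1p
    simpa using this
  have hq2 : p.toReal < 2 := by
    have := (ENNReal.toReal_lt_toReal hp (by norm_num)).2 h2p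
    simpa using this
  have hq0 : 0 < p.toReal := by linarith
  set b : ℝ := (2 : ℝ) ^ ((l : ℝ) / p.toReal) with hb
  have hb0 : 0 < b := by positivity
  have hbq : b ^ p.toReal = 2 ^ l := by
    rw [hb, ← Real.rpow_mul (by norm_num), div_mul_cancel₀ _ hq0.ne', Real.rpow_natCast]
  have h2M : (0 : ℝ) < 2 ^ M := by positivity
  refine ⟨?_, ?_, ?_, ?_, ?_⟩
  · intro A B
    simp only [hc, map_add, mul_add, Complex.add_re, Complex.add_im, add_smul,
      Finset.sum_add_distrib]
    abel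
  · intro t A
    simp only [hc, map_mul, Complex.conj_ofReal, smul_add, Finset.smul_sum, smul_smul]
    congr 1
    · refine Finset.sum_congr rfl fun m _ => ?_
      congr 1
      rw [mul_left_comm, Complex.re_ofReal_mul]
      ring
    · refine Finset.sum_congr rfl fun m _ => ?_
      congr 1
      rw [mul_left_comm, Complex.im_ofReal_mul]
      ring
  · intro A
    rw [hc_eq]
    refine supp_add ((part_supp hlM hi _).mono ?_) ((supp_Tr _ _ (part_supp hlM hi _) 1).mono ?_)
    · intro t ht; rw [mem_Ico] at *; constructor <;> linarith [ht.1, ht.2]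
    · intro t ht; rw [Set.mem_ofPred_eq, mem_Ico] at ht; rw [mem_Ico]; constructor <;> linarith [ht.1, ht.2]
  · intro A
    set u := part p M (J l i M) (fun m => b * (ec a m * (starRingEnd ℂ) A).re) with hu
    set w := part p M (J l i M) (fun m => b * (ec a m * (starRingEnd ℂ) A).im) with hw
    have h1 : ‖hc p l i a M A‖ ^ p.toReal = ‖u‖ ^ p.toReal + ‖w‖ ^ p.toReal := by
      have h2 := disj_sum hp (Finset.univ : Finset Bool)
        (fun k => if k then Ico (0 : ℝ) 1 else {t | t - 1 ∈ Ico (0 : ℝ) 1}) (by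
          intro i _ j _ hij
          have key : Disjoint (Ico (0 : ℝ) 1) {t : ℝ | t - 1 ∈ Ico (0 : ℝ) 1} := by
            rw [Set.disjoint_left]
            intro t h3 h4
            rw [mem_Ico] at h3
            rw [Set.mem_ofPred_eq, mem_Ico] at h4
            linarith [h3.2, h4.1]
          cases i <;> cases j
          · exact absurd rfl hij
          · simpa using key.symm
          · simpa using key
          · exact absurd rfl hij) (fun k => if k then u else Tr ℝ p 1 w) (by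
          intro i _
          cases i
          · simpa using supp_Tr _ _ (part_supp hlM hi _) 1
          · simpa using part_supp hlM hi _)
      simp only [Fintype.sum_bool, if_true, Bool.false_eq_true, if_false,
        LinearIsometry.norm_map] at h2
      rw [hc_eq, ← h2]
    have hz : ∀ m, ‖ec a m * (starRingEnd ℂ) A‖ = ‖A‖ := by
      intro m
      rw [norm_mul, ec_norm, one_mul, RCLike.norm_conj]
    have h3 : ‖hc p l i a M A‖ ^ p.toReal = ∑ m ∈ J l i M,
        (|(ec a m * (starRingEnd ℂ) A).re| ^ p.toReal + |(ec a m * (starRingEnd ℂ) A).im| ^ p.toReal) *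
          (2 ^ l * (2 ^ M)⁻¹) := by
      rw [h1, hu, hw, part_norm hp, part_norm hp, ← Finset.sum_add_distrib]
      refine Finset.sum_congr rfl fun m _ => ?_
      rw [abs_mul, abs_mul, Real.mul_rpow (abs_nonneg _) (abs_nonneg _),
        Real.mul_rpow (abs_nonneg _) (abs_nonneg _), abs_of_pos hb0, hbq]
      ring
    have h4 : ∀ x : ℝ, ∑ m ∈ J l i M, x * (2 ^ l * (2 ^ M)⁻¹) = x := by
      intro x
      rw [Finset.sum_const, nsmul_eq_mul, J_card]
      have : (2 : ℝ) ^ M = 2 ^ l * 2 ^ (M - l) := by rw [← pow_add]; congr 1; omega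
      rw [this]
      field_simp
    rw [h3]
    constructor
    · rw [← h4 (‖A‖ ^ p.toReal)]
      refine Finset.sum_le_sum fun m _ => ?_
      gcongr
      rw [← hz m]
      exact re_im_low hq0 hq2.le _
    · rw [← h4 (2 * ‖A‖ ^ p.toReal)]
      refine Finset.sum_le_sum fun m _ => ?_
      gcongr
      rw [← hz m]
      exact re_im_up hq0 _
  · intro s
    have e1 : Complex.exp (Complex.I * (2 * Real.pi * s / 2 ^ a)) = ec a s := rfl
    set x : ℤ := (i : ℤ) * 2 ^ (M - l) with hx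
    set y : ℤ := ((i : ℤ) + 1) * 2 ^ (M - l) with hy
    have hJ : J l i M = Finset.Ico x y := rfl
    set g : ℤ → ℝ := fun m => b * (ec a (m - s)).re with hg
    set k : ℤ → ℝ := fun m => b * (ec a (m - s)).im with hk
    have hgb : ∀ m, |g m| ≤ b := by
      intro m
      rw [hg, abs_mul, abs_of_pos hb0]
      calc _ ≤ b * ‖ec a (m - s)‖ := by gcongr; exact Complex.abs_re_le_norm _
        _ = b := by rw [ec_norm, mul_one]
    have hkb : ∀ m, |k m| ≤ b := by
      intro m
      rw [hk, abs_mul, abs_of_pos hb0]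
      calc _ ≤ b * ‖ec a (m - s)‖ := by gcongr; exact Complex.abs_im_le_norm _
        _ = b := by rw [ec_norm, mul_one]
    have e2 : Tr ℝ p ((s : ℝ) / 2 ^ M) (hc p l i a M 1) - hc p l i a M (ec a s) =
        (part p M (Finset.Ico (x + s) (y + s)) g - part p M (Finset.Ico x y) g) +
        Tr ℝ p 1 (part p M (Finset.Ico (x + s) (y + s)) k - part p M (Finset.Ico x y) k) := by
      rw [hc_eq, hc_eq, hJ]
      simp only [ec_conj, map_one, mul_one]
      rw [map_add, Tr_part, Tr_Tr, add_comm ((s : ℝ) / 2 ^ M) 1, ← Tr_Tr, Tr_part, map_sub]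
      abel
    rw [e1, e2]
    have h5 := diff_norm hp M (Finset.Ico (x + s) (y + s)) (Finset.Ico x y) g hgb
    have h6 := diff_norm hp M (Finset.Ico (x + s) (y + s)) (Finset.Ico x y) k hkb
    rw [hbq] at h5 h6
    have h7 := shift_card x y s
    set P := part p M (Finset.Ico (x + s) (y + s)) g - part p M (Finset.Ico x y) g
    set P' := part p M (Finset.Ico (x + s) (y + s)) k - part p M (Finset.Ico x y) k
    have h8 : ∀ z : ℝ, z ≤ (((Finset.Ico (x + s) (y + s) \ Finset.Ico x y).card : ℝ) +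
      ((Finset.Ico x y \ Finset.Ico (x + s) (y + s)).card : ℝ)) * (2 ^ l * (2 ^ M)⁻¹) →
        z ≤ 2 * |(s : ℝ)| * (2 ^ l * (2 ^ M)⁻¹) := fun z hz => hz.trans (by gcongr)
    have h9 := h8 _ h5
    have h10 := h8 _ h6
    have h11 : (2 : ℝ) ^ (p.toReal - 1) ≤ 2 := by
      calc (2 : ℝ) ^ (p.toReal - 1) ≤ 2 ^ (1 : ℝ) :=
            Real.rpow_le_rpow_of_exponent_le (by norm_num) (by linarith)
        _ = 2 := Real.rpow_one 2
    have h12 : (‖P‖ + ‖P'‖) ^ p.toReal ≤ 2 ^ (p.toReal - 1) * (‖P‖ ^ p.toReal + ‖P'‖ ^ p.toReal) := by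
      have hx0 := norm_nonneg P
      have hy0 := norm_nonneg P'
      generalize ‖P‖ = x0 at *
      generalize ‖P'‖ = y0 at *
      lift x0 to ℝ≥0 using hx0
      lift y0 to ℝ≥0 using hy0
      exact_mod_cast NNReal.rpow_add_le_mul_rpow_add_rpow x0 y0 hq1.le
    calc _ ≤ (‖P‖ + ‖P'‖) ^ p.toReal := by
          refine Real.rpow_le_rpow (norm_nonneg _) ?_ hq0.le
          refine (norm_add_le _ _).trans ?_
          rw [LinearIsometry.norm_map]
      _ ≤ 2 ^ (p.toReal - 1) * (‖P‖ ^ p.toReal + ‖P'‖ ^ p.toReal) := h12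
      _ ≤ 2 * (2 * |(s : ℝ)| * (2 ^ l * (2 ^ M)⁻¹) + 2 * |(s : ℝ)| * (2 ^ l * (2 ^ M)⁻¹)) := by
          gcongr
      _ = _ := by rw [div_eq_mul_inv]; ring

end Pool.Agent.W692.TB
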