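import Pool.Agent.W692.TB.Stage5

open scoped BigOperators Topology ENNReal NNReal
open Filter Set MeasureTheory H316F

namespace Pool.Agent.W692.TB

variable {p : ℝ≥0∞} [hp1 : Fact (1 ≤ p)]

theorem Fn_supp (F : X p) {μ μ' n M : ℕ} (v : ℕ → ℝ) (κ : ℝ) (H1 : X p) (hμ : 1 ≤ μ)
    (hM : n ^ 2 ≤ 2 ^ M) (hF : SuppOn (Bx μ) F) (hH : SuppOn (Ico 0 2) H1)
    (hμ' : (5 * (n : ℝ) + 1) * (2 * 2 ^ μ) ≤ 2 ^ μ') : SuppOn (Bx μ') (Fn F μ n M v κ H1) := by
  have h2 : (2 : ℝ) ≤ 2 ^ μ := by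
    calc (2 : ℝ) = 2 ^ 1 := by norm_num
      _ ≤ 2 ^ μ := pow_le_pow_right₀ (by norm_num) hμ
  have hn : (0 : ℝ) ≤ n := Nat.cast_nonneg _
  have h20 : (0 : ℝ) < 2 ^ μ := by positivity
  unfold Fn
  refine supp_add (supp_add ?_ ?_) ?_
  · refine hF.mono ?_
    intro t ht
    rw [Bx, mem_Ico] at *
    constructor <;> nlinarith [ht.1, ht.2, mul_nonneg hn h20.le]
  · refine SuppOn.sum fun k hk => SuppOn.smul ?_ _
    rw [Finset.mem_Ico] at hk
    refine (supp_Tr _ F hF _).mono ?_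
    intro t ht
    have hk2 : (k : ℝ) ≤ n := by exact_mod_cast hk.2.le
    have hk0 : (0 : ℝ) ≤ k := Nat.cast_nonneg _
    rw [Set.mem_ofPred_eq, Bx, mem_Ico] at ht
    rw [Bx, mem_Ico]
    have h3 : (k : ℝ) * (2 * 2 ^ μ) ≤ n * (2 * 2 ^ μ) := by gcongr
    have h4 : (0 : ℝ) ≤ (k : ℝ) * (2 * 2 ^ μ) := by positivity
    constructor <;> nlinarith [ht.1, ht.2, mul_nonneg hn h20.le]
  · refine SuppOn.smul ?_ _
    refine SuppOn.sum fun r hr => ?_
    rw [Finset.mem_range] at hr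
    refine (supp_Tr _ H1 hH _).mono ?_
    intro t ht
    have hr2 : (r : ℝ) ≤ n := by exact_mod_cast hr.le
    have hr0 : (0 : ℝ) ≤ r := Nat.cast_nonneg _
    rw [Set.mem_ofPred_eq, mem_Ico] at ht
    rw [Bx, mem_Ico]
    have h3 : (3 * n + r : ℝ) * (2 * 2 ^ μ) ≤ (4 * n) * (2 * 2 ^ μ) := by gcongr; linarith
    have h4 : (0 : ℝ) ≤ (3 * n + r : ℝ) * (2 * 2 ^ μ) := by positivity
    have h5 : (r : ℝ) ^ 2 / 2 ^ M ≤ 1 := by
      rw [div_le_one (by positivity)]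
      calc (r : ℝ) ^ 2 ≤ (n : ℝ) ^ 2 := by gcongr
        _ ≤ 2 ^ M := by exact_mod_cast hM
    have h6 : (0 : ℝ) ≤ (r : ℝ) ^ 2 / 2 ^ M := by positivity
    constructor <;> nlinarith [ht.1, ht.2, mul_nonneg hn h20.le]

theorem stage (hm : S_main) (hr : S_riesz) (hw : S_w) (hhc : S_hc) (htr : S_trans) : S_stage := by
  intro p _ h1p h2p
  have hp : p ≠ ⊤ := ne_top_of_lt h2p
  set q := p.toReal with hq
  have hq1 : 1 < q := by
    have := (ENNReal.toReal_lt_toReal (by norm_num) hp).2 h1p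
    simpa using this
  have hq2 : q < 2 := by
    have := (ENNReal.toReal_lt_toReal hp (by norm_num)).2 h2p
    simpa using this
  have hq0 : 0 < q := by linarith
  obtain ⟨C1, hC1, hmain⟩ := hm q hq1 hq2
  obtain ⟨C2, hC2, hW1, hW2⟩ := hw hr q hq1
  set K0 : ℝ := (4 * (C1 + C2)) ^ (1 / q) with hK0
  have hK0p : 0 < K0 := by positivity
  refine ⟨2 * K0, by positivity, ?_⟩
  intro F μ l i m0 δ hF0 hμ hFs hi hδ
  have hFn : 0 < ‖F‖ := norm_pos_iff.2 hF0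
  -- choice of `v`
  have hδv : 0 < (δ / (2 * ‖F‖)) ^ q := by positivity
  obtain ⟨v, hv1, hv2, hv3⟩ := hmain _ hδv
  -- choice of `n`
  set ε : ℝ := δ / 8 with hε
  have hε0 : 0 < ε := by positivity
  have hlim1 : Tendsto (fun n : ℕ => ((n : ℝ) ^ (1 - q) * MN q n v (fun _ => 1)) * ‖F‖ ^ q +
      2 * ε ^ q * ((n : ℝ) ^ (-q) *
      ∑ D ∈ (Finset.Ioo (-(n : ℤ)) n).erase 0, ‖AD n (fun _ => 1) D‖ ^ q)) atTop (𝓝 0) := by
    have := (hv3.mul_const (‖F‖ ^ q)).add (hW2.const_mul (2 * ε ^ q))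
    simpa using this
  have hlim2 : Tendsto (fun n : ℕ => ε * (n : ℝ) ^ (1 - 1 / q)) atTop atTop := by
    refine Tendsto.const_mul_atTop hε0 ?_
    refine (tendsto_rpow_atTop ?_).comp tendsto_natCast_atTop_atTop
    rw [sub_pos, div_lt_one hq0]; exact hq1
  have hev := (hlim1.eventually (gt_mem_nhds (show (0 : ℝ) < (δ * ε) ^ q by positivity))).and
    (hlim2.eventually_ge_atTop 1)
  obtain ⟨N0, hN0⟩ := eventually_atTop.1 hev
  set n : ℕ := 2 ^ N0 with hn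
  have hnN : N0 ≤ n := Nat.lt_two_pow_self.le
  have hn1 : 1 ≤ n := Nat.one_le_two_pow
  obtain ⟨hA, hB⟩ := hN0 n hnN
  have hnr : (0 : ℝ) < n := by exact_mod_cast hn1
  set a : ℕ := N0 + 1 with ha
  have h2a : 2 ^ a = 2 * n := by rw [ha, hn, pow_succ]; ring
  set κ : ℝ := ε * (n : ℝ) ^ (-(1 / q)) with hκ
  have hκ0 : 0 < κ := by positivity
  have hκn : κ * n = ε * (n : ℝ) ^ (1 - 1 / q) := by
    rw [hκ, mul_assoc, sub_eq_add_neg, Real.rpow_add hnr, Real.rpow_one]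
    ring
  have hκq : κ ^ q = ε ^ q * (n : ℝ)⁻¹ := by
    rw [hκ, Real.mul_rpow hε0.le (by positivity), ← Real.rpow_mul hnr.le]
    congr 1
    rw [neg_mul, one_div, inv_mul_cancel₀ hq0.ne', Real.rpow_neg_one]
  -- choice of `M`
  set tt : ℕ → ℕ → ℕ → ℝ := fun M j r =>
    (8 * 2 ^ l * |(((j : ℤ) ^ 2 - (r : ℤ) ^ 2 : ℤ) : ℝ)| / 2 ^ M) ^ (1 / q) with htt
  set S : ℝ := 1 + ∑ k ∈ Finset.Ico 1 n, |v k| with hS
  have h2M : Tendsto (fun M : ℕ => (2 : ℝ) ^ M) atTop atTop :=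
    tendsto_pow_atTop_atTop_of_one_lt (by norm_num)
  have hlim3 : Tendsto (fun M : ℕ => ∑ j ∈ Finset.range n,
      (S * ‖Tr ℝ p ((j : ℝ) ^ 2 / 2 ^ M) F - F‖ + κ * ∑ r ∈ Finset.range n, tt M j r))
      atTop (𝓝 0) := by
    have h5 : ∀ j : ℕ, Tendsto (fun M : ℕ => ‖Tr ℝ p ((j : ℝ) ^ 2 / 2 ^ M) F - F‖) atTop (𝓝 0) := by
      intro j
      have h6 : Tendsto (fun M : ℕ => (j : ℝ) ^ 2 / 2 ^ M) atTop (𝓝 0) := h2M.const_div_atTop _
      have h7 := ((Tr_cont (𝕜 := ℝ) hp F).tendsto 0).comp h6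
      rw [Tr_zero] at h7
      have h8 := (h7.sub_const F).norm
      simpa using h8
    have h6 : ∀ j r : ℕ, Tendsto (fun M : ℕ => tt M j r) atTop (𝓝 0) := by
      intro j r
      have h7 : Tendsto (fun M : ℕ => 8 * 2 ^ l * |(((j : ℤ) ^ 2 - (r : ℤ) ^ 2 : ℤ) : ℝ)| / 2 ^ M)
        atTop (𝓝 0) := h2M.const_div_atTop _
      have h8 := h7.rpow_const (p := 1 / q) (Or.inr (by positivity))
      rwa [Real.zero_rpow (by positivity)] at h8
    have h9 := tendsto_finsetSum (Finset.range n) (fun j _ =>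
      ((h5 j).const_mul S).add ((tendsto_finsetSum (Finset.range n) (fun r _ => h6 j r)).const_mul κ))
    simpa using h9
  have hevM := ((hlim3.eventually (ge_mem_nhds hδ)).and
    (eventually_ge_atTop (m0 + a + (l + a)))).and (h2M.eventually_ge_atTop ((n : ℝ) ^ 2))
  obtain ⟨M, ⟨hM1, hM2⟩, hM3⟩ := hevM.exists
  have hM3' : n ^ 2 ≤ 2 ^ M := by exact_mod_cast hM3
  have hlM : l ≤ M := by omega
  obtain ⟨hadd, hsm, hsupp, hnorm, htrl⟩ := hhc p h1p h2p l i a M hlM hi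
  set H : ℂ → X p := hc p l i a M with hH
  have hBx1 : Ico (0 : ℝ) 2 ⊆ Bx μ := by
    intro t ht
    have h5 : (2 : ℝ) ≤ 2 ^ μ := by
      calc (2 : ℝ) = 2 ^ 1 := by norm_num
        _ ≤ 2 ^ μ := pow_le_pow_right₀ (by norm_num) hμ
    rw [mem_Ico] at ht
    rw [Bx, mem_Ico]
    constructor <;> linarith [ht.1, ht.2]
  have hHs : ∀ A, SuppOn (Bx μ) (H A) := fun A => (hsupp A).mono hBx1
  -- choice of `μ'`
  obtain ⟨μ0, hμ0⟩ := pow_unbounded_of_one_lt ((5 * (n : ℝ) + 1) * (2 * 2 ^ μ)) (by norm_num : (1 : ℝ) < 2)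
  set μ' := max μ0 (μ + 1) with hμ'
  have hμ'1 : (5 * (n : ℝ) + 1) * (2 * 2 ^ μ) ≤ 2 ^ μ' :=
    hμ0.le.trans (pow_le_pow_right₀ (by norm_num) (le_max_left _ _))
  have hμ'2 : μ < μ' := lt_of_lt_of_le (Nat.lt_succ_self μ) (le_max_right _ _)
  have hRn := rj_norm htr hp F μ hn1 v hκ0 H hadd hsm hFs hHs
  have hroot : ∀ x : ℝ, 0 ≤ x → x = (x ^ q) ^ (1 / q) := by
    intro x hx
    rw [← Real.rpow_mul hx, mul_one_div_cancel hq0.ne', Real.rpow_one]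
  have hineq := stage_ineq hq1 hq2 hn1 v hFn.le hκ0 hC1 hC2
    (fun c => ‖∑ j ∈ Finset.range n, c j • rj F μ n v κ H j‖) (fun c => norm_nonneg _)
    (fun c c' => by
      simp only [sub_smul, Finset.sum_sub_distrib]
      exact norm_sub_le _ _)
    (fun c => by
      rw [hRn c]
      exact add_le_add le_rfl (mul_le_mul_of_nonneg_left
        (Finset.sum_le_sum fun D _ => (hnorm _).1) (by positivity)))
    (fun c => by
      rw [hRn c]
      refine add_le_add le_rfl (mul_le_mul_of_nonneg_left ?_ (by positivity))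
      rw [Finset.mul_sum]
      exact Finset.sum_le_sum fun D _ => (hnorm _).2)
    (fun c N hN => hv2 n c N hN) (fun c N hN => hW1 n c N hN)
  refine ⟨n, μ', a, M, Fn F μ n M v κ (H 1), lamj μ n M, rj F μ n v κ H, κ, hn1, hμ'2, by omega,
    by omega, by omega, hκ0, by rw [hκn]; exact hB, ?_, Fn_supp F v κ (H 1) hμ hM3' hFs (hsupp 1) hμ'1,
    fun j hj => rj_supp F μ μ' v H hFs hHs hμ'1 hj, ?_, ?_, ?_, ?_⟩
  · -- increment
    refine (Fn_sub htr hp F μ v hκ0 (H 1) hμ hM3' hFs (hsupp 1)).trans ?_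
    have h5 : (∑ k ∈ Finset.Ico 1 n, |v k| ^ q) ^ (1 / q) ≤ δ / (2 * ‖F‖) := by
      rw [hroot (δ / (2 * ‖F‖)) (by positivity)]
      exact Real.rpow_le_rpow (Finset.sum_nonneg fun k _ => by positivity) (hv1 n) (by positivity)
    have h6 : κ * (n : ℝ) ^ (1 / q) = ε := by
      rw [hκ, mul_assoc, ← Real.rpow_add hnr]
      simp
    have h7 : ‖H 1‖ ≤ 2 := by
      have h8 := (hnorm 1).2
      rw [norm_one, Real.one_rpow, mul_one] at h8
      rw [hroot ‖H 1‖ (norm_nonneg _), hroot 2 (by norm_num)]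
      refine Real.rpow_le_rpow (by positivity) (h8.trans ?_) (by positivity)
      calc (2 : ℝ) = 2 ^ (1 : ℝ) := (Real.rpow_one 2).symm
        _ ≤ 2 ^ q := Real.rpow_le_rpow_of_exponent_le (by norm_num) hq1.le
    calc _ ≤ δ / (2 * ‖F‖) * ‖F‖ + ε * 2 := by
          rw [h6]; gcongr
      _ = δ / 2 + ε * 2 := by field_simp
      _ ≤ δ := by rw [hε]; linarith
  · intro c N hN
    have h5 := hineq.1 c N hN
    simp only [sum_trunc hN, sum_trunc' hN] at h5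
    refine h5.trans ?_
    have : 0 ≤ ‖∑ j ∈ Finset.range n, c j • rj F μ n v κ H j‖ + |κ * ∑ j ∈ Finset.range n, c j| := by
      positivity
    nlinarith
  · intro c j hj
    exact hineq.2 c j hj
  · -- flat
    have h5 := hRn (fun _ => 1)
    simp only [one_smul] at h5
    rw [hroot ‖∑ j ∈ Finset.range n, rj F μ n v κ H j‖ (norm_nonneg _), h5,
      hroot (δ * (κ * n)) (by positivity)]
    refine Real.rpow_le_rpow ?_ ?_ (by positivity)
    · rw [← h5]; positivity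
    have h6 : ∑ D ∈ (Finset.Ioo (-(n : ℤ)) n).erase 0, ‖H (AD n (fun _ => 1) D)‖ ^ q ≤
        2 * ∑ D ∈ (Finset.Ioo (-(n : ℤ)) n).erase 0, ‖AD n (fun _ => 1) D‖ ^ q := by
      rw [Finset.mul_sum]
      exact Finset.sum_le_sum fun D _ => (hnorm _).2
    set MNn := MN q n v (fun _ => 1)
    set WNn := ∑ D ∈ (Finset.Ioo (-(n : ℤ)) n).erase 0, ‖AD n (fun _ => 1) D‖ ^ q with hWNn
    have h7 : (δ * (κ * n)) ^ q = (δ * ε) ^ q * (n : ℝ) ^ (q - 1) := by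
      rw [hκn, ← mul_assoc, Real.mul_rpow (by positivity) (by positivity), ← Real.rpow_mul hnr.le]
      congr 2
      field_simp
    have h8 : (n : ℝ) ^ (q - 1) * ((n : ℝ) ^ (1 - q) * MNn * ‖F‖ ^ q + 2 * ε ^ q * ((n : ℝ) ^ (-q) * WNn)) =
        MNn * ‖F‖ ^ q + κ ^ q * (2 * WNn) := by
      have e1 : (n : ℝ) ^ (q - 1) * (n : ℝ) ^ (1 - q) = 1 := by
        rw [← Real.rpow_add hnr]; simp
      have e2 : (n : ℝ) ^ (q - 1) * (n : ℝ) ^ (-q) = (n : ℝ)⁻¹ := by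
        rw [← Real.rpow_add hnr, ← Real.rpow_neg_one]; congr 1; ring
      rw [hκq]
      calc _ = ((n : ℝ) ^ (q - 1) * (n : ℝ) ^ (1 - q)) * (MNn * ‖F‖ ^ q) +
            ((n : ℝ) ^ (q - 1) * (n : ℝ) ^ (-q)) * (2 * ε ^ q * WNn) := by ring
        _ = _ := by rw [e1, e2]; ring
    rw [h7]
    calc _ ≤ MNn * ‖F‖ ^ q + κ ^ q * (2 * WNn) := by gcongr
      _ = (n : ℝ) ^ (q - 1) * ((n : ℝ) ^ (1 - q) * MNn * ‖F‖ ^ q + 2 * ε ^ q * ((n : ℝ) ^ (-q) * WNn)) :=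
        h8.symm
      _ ≤ (n : ℝ) ^ (q - 1) * (δ * ε) ^ q := by gcongr
      _ = _ := by ring
  · -- approximation
    refine le_trans (Finset.sum_le_sum fun j hj => ?_) hM1
    refine approx_j F μ n M v hκ0 H (fun j r => tt M j r) (fun j r => ?_) (Finset.mem_range.1 hj)
    have h5 := htrl ((j : ℤ) ^ 2 - (r : ℤ) ^ 2)
    rw [ph_eq h2a, hroot ‖_‖ (norm_nonneg _)]
    exact Real.rpow_le_rpow (by positivity) h5 (by positivity)

end Pool.Agent.W692.TB
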