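import Pool.Agent.W692.TB.Stms

open scoped BigOperators Topology ENNReal
open Filter Set MeasureTheory H316F

namespace Pool.Agent.W692.TB

variable {p : ℝ≥0∞} [hp1 : Fact (1 ≤ p)]

theorem supp_Tr (A : Set ℝ) (u : X p) (h : SuppOn A u) (a : ℝ) :
    SuppOn {t | t - a ∈ A} (Tr ℝ p a u) := by
  have h1 := (measurePreserving_sub_right (volume : Measure ℝ) a).quasiMeasurePreserving.ae h
  filter_upwards [Tr_coe (𝕜 := ℝ) a u, h1] with t h2 h3 h4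
  rw [h2]
  exact h3 h4

theorem supp_add {A : Set ℝ} {u v : X p} (hu : SuppOn A u) (hv : SuppOn A v) :
    SuppOn A (u + v : X p) := by
  filter_upwards [hu, hv, Lp.coeFn_add u v] with t h1 h2 h3 h4
  rw [h3, Pi.add_apply, h1 h4, h2 h4, add_zero]

/-- the translate by a nonzero multiple of `Q = 2 * 2 ^ μ` avoids `Bx μ` -/
theorem supp_annulus {μ μ' : ℕ} {z : ℤ} (hz : z ≠ 0) (u : X p) (hu : SuppOn (Bx μ) u)
    (hμ' : (|(z : ℝ)| + 1) * (2 * 2 ^ μ) ≤ 2 ^ μ') :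
    SuppOn (An μ μ') (Tr ℝ p (z * (2 * 2 ^ μ)) u) := by
  refine (supp_Tr _ u hu _).mono ?_
  intro t ht
  have h2 : (0 : ℝ) < 2 ^ μ := by positivity
  rw [Set.mem_ofPred_eq, Bx, mem_Ico] at ht
  have h3 : |(z : ℝ)| ≥ 1 := by
    have : (1 : ℤ) ≤ |z| := Int.one_le_abs hz
    exact_mod_cast this
  have h4 := le_abs_self (z : ℝ)
  have h5 := neg_abs_le (z : ℝ)
  constructor
  · rw [Bx, mem_Ico]
    constructor <;> nlinarith [ht.1, ht.2]
  · rw [Bx, mem_Ico]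
    rintro ⟨h6, h7⟩
    rcases lt_or_gt_of_ne hz with h | h
    · have : (z : ℝ) ≤ -1 := by exact_mod_cast Int.le_sub_one_of_lt h
      nlinarith [ht.1, ht.2]
    · have : (1 : ℝ) ≤ z := by exact_mod_cast h
      nlinarith [ht.1, ht.2]

theorem Tr_sum (a : ℝ) {ι : Type*} (s : Finset ι) (f : ι → X p) :
    Tr ℝ p a (∑ i ∈ s, f i) = ∑ i ∈ s, Tr ℝ p a (f i) := map_sum _ _ _

theorem Tr_Tr (a b : ℝ) (f : X p) : Tr ℝ p a (Tr ℝ p b f) = Tr ℝ p (a + b) f := (Tr_add a b f).symm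

end Pool.Agent.W692.TB
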