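import Pool.Agent.W692.TB.Stage1

open scoped BigOperators Topology ENNReal
open Filter Set MeasureTheory H316F

namespace Pool.Agent.W692.TB

/-- the main part -/
theorem main_identity {V : Type*} [AddCommGroup V] [Module ℝ V] (n : ℕ) (v c : ℕ → ℝ) (T : ℕ → V) :
    ∑ j ∈ Finset.range n, c j • (T j + ∑ k ∈ Finset.Ico 1 n, v k • T (j + k)) =
      ∑ i ∈ Finset.range (2 * n), yco n v c i • T i := by
  simp only [yco, Finset.sum_smul]
  rw [Finset.sum_comm]
  refine Finset.sum_congr rfl fun j hj => ?_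
  rw [Finset.mem_range] at hj
  have hsub : Finset.Ico j (j + n) ⊆ Finset.range (2 * n) := by
    intro i hi
    rw [Finset.mem_Ico] at hi
    rw [Finset.mem_range]
    omega
  rw [← Finset.sum_subset hsub]
  · rw [Finset.sum_Ico_eq_sum_range _ j (j + n)]
    have e : j + n - j = n := by omega
    have e2 : ∀ g : ℕ → V, ∑ x ∈ Finset.range n, g x = g 0 + ∑ k ∈ Finset.Ico 1 n, g k := by
      intro g
      rw [Finset.range_eq_Ico, Finset.sum_eq_sum_Ico_succ_bot (by omega)]
    rw [e, e2, smul_add]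
    congr 1
    · simp
    · rw [Finset.smul_sum]
      refine Finset.sum_congr rfl fun k hk => ?_
      rw [Finset.mem_Ico] at hk
      have h1 : ¬ (j + k = j) := by omega
      have h2 : j < j + k ∧ j + k < j + n := by omega
      rw [if_neg h1, if_pos h2, smul_smul]
      congr 1
      rw [Nat.add_sub_cancel_left]
      ring
  · intro i _ hi
    rw [Finset.mem_Ico] at hi
    have h1 : ¬ (i = j) := by omega
    have h2 : ¬ (j < i ∧ i < j + n) := by omega
    rw [if_neg h1, if_neg h2, zero_smul]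

/-- the phases -/
noncomputable def ph (n : ℕ) (j r : ℕ) : ℂ :=
  Complex.exp (Complex.I * Real.pi * ((j : ℂ) ^ 2 - (r : ℂ) ^ 2) / n)

theorem H_sum {V : Type*} [AddCommGroup V] [Module ℝ V] (H : ℂ → V)
    (hadd : ∀ A B, H (A + B) = H A + H B) (hsm : ∀ (t : ℝ) A, H (t * A) = t • H A)
    {ι : Type*} (s : Finset ι) (f : ι → ℂ) : H (∑ i ∈ s, f i) = ∑ i ∈ s, H (f i) := by
  classical
  have h0 : H 0 = 0 := by
    have := hsm 0 0
    simpa using this
  induction s using Finset.induction_on with
  | empty => simp [h0]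
  | insert a s ha ih => rw [Finset.sum_insert ha, Finset.sum_insert ha, hadd, ih]

theorem w_identity {V : Type*} [AddCommGroup V] [Module ℝ V] (H : ℂ → V)
    (hadd : ∀ A B, H (A + B) = H A + H B) (hsm : ∀ (t : ℝ) A, H (t * A) = t • H A)
    (n : ℕ) (c : ℕ → ℝ) (U : ℤ → V →ₗ[ℝ] V) :
    ∑ j ∈ Finset.range n, c j • ∑ r ∈ Finset.range n,
        (if r = j then 0 else U ((j : ℤ) - r) (H (ph n j r))) =
      ∑ D ∈ (Finset.Ioo (-(n : ℤ)) n).erase 0, U D (H (AD n c D)) := by
  have h0 : H 0 = 0 := by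
    have := hsm 0 0
    simpa using this
  have e1 : ∀ D, H (AD n c D) = ∑ j ∈ Finset.range n, ∑ r ∈ Finset.range n,
      if (j : ℤ) - r = D then c j • H (ph n j r) else 0 := by
    intro D
    rw [AD, H_sum H hadd hsm]
    refine Finset.sum_congr rfl fun j _ => ?_
    rw [H_sum H hadd hsm]
    refine Finset.sum_congr rfl fun r _ => ?_
    split_ifs with h
    · rw [hsm, ph]
    · exact h0
  simp only [e1, map_sum]
  rw [Finset.sum_comm]
  refine Finset.sum_congr rfl fun j hj => ?_
  rw [Finset.sum_comm, Finset.smul_sum]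
  refine Finset.sum_congr rfl fun r hr => ?_
  rw [Finset.mem_range] at hj hr
  by_cases h : r = j
  · rw [if_pos h, smul_zero]
    symm
    refine Finset.sum_eq_zero fun D hD => ?_
    rw [Finset.mem_erase] at hD
    rw [if_neg (by intro h2; apply hD.1; omega), map_zero]
  · rw [if_neg h, Finset.sum_eq_single ((j : ℤ) - r)]
    · rw [if_pos rfl, map_smul]
    · intro D _ hD
      rw [if_neg (Ne.symm hD), map_zero]
    · intro h2
      exfalso
      apply h2
      rw [Finset.mem_erase, Finset.mem_Ioo]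
      omega

theorem AD_zero (n : ℕ) (c : ℕ → ℝ) : AD n c 0 = ((∑ j ∈ Finset.range n, c j : ℝ) : ℂ) := by
  rw [AD]
  push_cast
  refine Finset.sum_congr rfl fun j hj => ?_
  rw [Finset.sum_eq_single j]
  · simp
  · intro r _ hr
    rw [if_neg]
    omega
  · intro h; exact absurd hj h

theorem ph_self (n j : ℕ) : ph n j j = 1 := by simp [ph]

end Pool.Agent.W692.TB
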