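import Pool.Agent.W692.TB.Stage2

open scoped BigOperators Topology ENNReal NNReal
open Filter Set MeasureTheory H316F

namespace Pool.Agent.W692.TB

theorem rpow_add_le' {q : ℝ} (hq : 1 ≤ q) {a b : ℝ} (ha : 0 ≤ a) (hb : 0 ≤ b) :
    (a + b) ^ q ≤ 2 ^ (q - 1) * (a ^ q + b ^ q) := by
  lift a to ℝ≥0 using ha
  lift b to ℝ≥0 using hb
  exact_mod_cast NNReal.rpow_add_le_mul_rpow_add_rpow a b hq

theorem sum_trunc {V : Type*} [AddCommGroup V] [Module ℝ V] {n N : ℕ} (hN : N ≤ n) (c : ℕ → ℝ)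
    (x : ℕ → V) : ∑ j ∈ Finset.range n, trunc N c j • x j = ∑ j ∈ Finset.range N, c j • x j := by
  have hsub : Finset.range N ⊆ Finset.range n := Finset.range_mono hN
  rw [← Finset.sum_subset hsub]
  · refine Finset.sum_congr rfl fun j hj => ?_
    rw [Finset.mem_range] at hj
    simp [trunc, hj]
  · intro j _ hj
    rw [Finset.mem_range] at hj
    simp [trunc, hj]

theorem sum_trunc' {n N : ℕ} (hN : N ≤ n) (c : ℕ → ℝ) :
    ∑ j ∈ Finset.range n, trunc N c j = ∑ j ∈ Finset.range N, c j := by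
  have := sum_trunc (V := ℝ) hN c (fun _ => 1)
  simpa using this

theorem MN_single {q : ℝ} (n : ℕ) (v c : ℕ → ℝ) {j : ℕ} (hj : j < n) :
    |c j| ^ q ≤ MN q n v (fun i => trunc (j + 1) c i - trunc j c i) := by
  have h1 : yco n v (fun i => trunc (j + 1) c i - trunc j c i) j = c j := by
    rw [yco, Finset.sum_eq_single j]
    · simp [trunc]
    · intro b _ hb
      rw [if_neg (Ne.symm hb)]
      split_ifs with h
      · have h2 : b < j := h.1
        simp [trunc, h2, Nat.lt_succ_of_lt h2]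
      · rfl
    · intro h; exact absurd (Finset.mem_range.2 hj) h
  rw [MN]
  have h2 := Finset.single_le_sum (s := Finset.range (2 * n))
    (f := fun i => |yco n v (fun i => trunc (j + 1) c i - trunc j c i) i| ^ q)
    (fun i _ => by positivity) (Finset.mem_range.2 (by omega : j < 2 * n))
  simp only [h1] at h2
  exact h2

theorem WN_split {q : ℝ} {n : ℕ} (hn : 1 ≤ n) (c : ℕ → ℝ) :
    WN q n c = ‖AD n c 0‖ ^ q + ∑ D ∈ (Finset.Ioo (-(n : ℤ)) n).erase 0, ‖AD n c D‖ ^ q := by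
  rw [WN]
  refine (Finset.add_sum_erase _ (fun D => ‖AD n c D‖ ^ q) ?_).symm
  rw [Finset.mem_Ioo]
  omega

theorem AD_zero_norm (n : ℕ) (c : ℕ → ℝ) : ‖AD n c 0‖ = |∑ j ∈ Finset.range n, c j| := by
  rw [AD_zero, Complex.norm_real, Real.norm_eq_abs]

/-- the inner estimates of a block -/
theorem stage_ineq {q : ℝ} (hq1 : 1 < q) (hq2 : q < 2) {n : ℕ} (hn : 1 ≤ n) (v : ℕ → ℝ)
    {Φ κ C1 C2 : ℝ} (hΦ : 0 ≤ Φ) (hκ : 0 < κ) (hC1 : 0 < C1) (hC2 : 0 < C2)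
    (R : (ℕ → ℝ) → ℝ) (hR0 : ∀ c, 0 ≤ R c)
    (hRt : ∀ c c' : ℕ → ℝ, R (fun i => c i - c' i) ≤ R c + R c')
    (hlow : ∀ c, MN q n v c * Φ ^ q +
      κ ^ q * ∑ D ∈ (Finset.Ioo (-(n : ℤ)) n).erase 0, ‖AD n c D‖ ^ q ≤ R c ^ q)
    (hup : ∀ c, R c ^ q ≤ MN q n v c * Φ ^ q +
      κ ^ q * (2 * ∑ D ∈ (Finset.Ioo (-(n : ℤ)) n).erase 0, ‖AD n c D‖ ^ q))
    (h1 : ∀ (c : ℕ → ℝ) (N : ℕ), N ≤ n → MN q n v (trunc N c) ≤ C1 * MN q n v c)
    (h2 : ∀ (c : ℕ → ℝ) (N : ℕ), N ≤ n → WN q n (trunc N c) ≤ C2 * WN q n c) :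
    (∀ (c : ℕ → ℝ) (N : ℕ), N ≤ n →
      R (trunc N c) + |κ * ∑ j ∈ Finset.range n, trunc N c j| ≤
        (4 * (C1 + C2)) ^ (1 / q) * (R c + |κ * ∑ j ∈ Finset.range n, c j|)) ∧
    (∀ (c : ℕ → ℝ) (j : ℕ), j < n → |c j| * Φ ≤
        2 * (4 * (C1 + C2)) ^ (1 / q) * (R c + |κ * ∑ j ∈ Finset.range n, c j|)) := by
  have hq0 : 0 < q := by linarith
  set E : (ℕ → ℝ) → ℝ := fun c => R c + |κ * ∑ j ∈ Finset.range n, c j| with hE
  have hE0 : ∀ c, 0 ≤ E c := fun c => by have := hR0 c; positivity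
  have hS : ∀ c : ℕ → ℝ, |κ * ∑ j ∈ Finset.range n, c j| ^ q = κ ^ q * ‖AD n c 0‖ ^ q := by
    intro c
    rw [AD_zero_norm, abs_mul, abs_of_pos hκ, Real.mul_rpow hκ.le (abs_nonneg _)]
  have hMN0 : ∀ c, 0 ≤ MN q n v c := fun c => Finset.sum_nonneg fun i _ => by positivity
  have hWN0 : ∀ c, 0 ≤ WN q n c := fun c => Finset.sum_nonneg fun i _ => by positivity
  have hΦq : 0 ≤ Φ ^ q := by positivity
  have hκq : 0 < κ ^ q := by positivity
  -- lower bound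
  have hL : ∀ c, MN q n v c * Φ ^ q + κ ^ q * WN q n c ≤ E c ^ q := by
    intro c
    have h3 := Real.add_rpow_le_rpow_add (hR0 c) (abs_nonneg (κ * ∑ j ∈ Finset.range n, c j)) hq1.le
    rw [hS] at h3
    have h4 := hlow c
    rw [WN_split hn]
    calc _ = (MN q n v c * Φ ^ q +
      κ ^ q * ∑ D ∈ (Finset.Ioo (-(n : ℤ)) n).erase 0, ‖AD n c D‖ ^ q) + κ ^ q * ‖AD n c 0‖ ^ q := by ring
      _ ≤ R c ^ q + κ ^ q * ‖AD n c 0‖ ^ q := by linarith
      _ ≤ _ := h3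
  have hU : ∀ c, E c ^ q ≤ 4 * (MN q n v c * Φ ^ q + κ ^ q * WN q n c) := by
    intro c
    have h3 := rpow_add_le' hq1.le (hR0 c) (abs_nonneg (κ * ∑ j ∈ Finset.range n, c j))
    rw [hS] at h3
    have h4 := hup c
    have h5 : (2 : ℝ) ^ (q - 1) ≤ 2 := by
      calc (2 : ℝ) ^ (q - 1) ≤ 2 ^ (1 : ℝ) := Real.rpow_le_rpow_of_exponent_le (by norm_num) (by linarith)
        _ = 2 := Real.rpow_one 2
    have h6 : 0 ≤ R c ^ q + κ ^ q * ‖AD n c 0‖ ^ q := by have := hR0 c; positivity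
    have h7 : 0 ≤ MN q n v c * Φ ^ q := mul_nonneg (hMN0 c) hΦq
    have h8 : 0 ≤ κ ^ q * ‖AD n c 0‖ ^ q := by positivity
    rw [WN_split hn]
    calc _ ≤ 2 ^ (q - 1) * (R c ^ q + κ ^ q * ‖AD n c 0‖ ^ q) := h3
      _ ≤ 2 * (R c ^ q + κ ^ q * ‖AD n c 0‖ ^ q) := by gcongr
      _ ≤ _ := by nlinarith
  have hm : ∀ (c : ℕ → ℝ) (N : ℕ), N ≤ n → E (trunc N c) ≤ (4 * (C1 + C2)) ^ (1 / q) * E c := by
    intro c N hN
    have h3 : E (trunc N c) ^ q ≤ 4 * (C1 + C2) * E c ^ q := by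
      have h4 := hU (trunc N c)
      have h5 := h1 c N hN
      have h6 := h2 c N hN
      have h7 := hL c
      have h8 : MN q n v (trunc N c) * Φ ^ q ≤ (C1 + C2) * (MN q n v c * Φ ^ q) := by
        calc _ ≤ C1 * MN q n v c * Φ ^ q := by gcongr
          _ = C1 * (MN q n v c * Φ ^ q) := by ring
          _ ≤ _ := by
            have : 0 ≤ MN q n v c * Φ ^ q := mul_nonneg (hMN0 c) hΦq
            nlinarith
      have h9 : κ ^ q * WN q n (trunc N c) ≤ (C1 + C2) * (κ ^ q * WN q n c) := by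
        calc _ ≤ κ ^ q * (C2 * WN q n c) := by gcongr
          _ = C2 * (κ ^ q * WN q n c) := by ring
          _ ≤ _ := by
            have : 0 ≤ κ ^ q * WN q n c := mul_nonneg hκq.le (hWN0 c)
            nlinarith
      have h10 : (C1 + C2) * (MN q n v c * Φ ^ q + κ ^ q * WN q n c) ≤ (C1 + C2) * E c ^ q := by
        gcongr
      nlinarith
    have h4 : E (trunc N c) = (E (trunc N c) ^ q) ^ (1 / q) := by
      rw [← Real.rpow_mul (hE0 _), mul_one_div_cancel hq0.ne', Real.rpow_one]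
    have h5 : E c = (E c ^ q) ^ (1 / q) := by
      rw [← Real.rpow_mul (hE0 _), mul_one_div_cancel hq0.ne', Real.rpow_one]
    have h6 : 0 ≤ E (trunc N c) ^ q := Real.rpow_nonneg (hE0 _) _
    have h7 : 0 ≤ E c ^ q := Real.rpow_nonneg (hE0 _) _
    rw [h4, h5, ← Real.mul_rpow (by positivity) h7]
    exact Real.rpow_le_rpow h6 h3 (by positivity)
  refine ⟨hm, fun c j hj => ?_⟩
  have h3 := MN_single (q := q) n v c hj
  have h4 := hlow (fun i => trunc (j + 1) c i - trunc j c i)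
  have h5 : (|c j| * Φ) ^ q ≤ R (fun i => trunc (j + 1) c i - trunc j c i) ^ q := by
    rw [Real.mul_rpow (abs_nonneg _) hΦ]
    calc _ ≤ MN q n v (fun i => trunc (j + 1) c i - trunc j c i) * Φ ^ q := by gcongr
      _ ≤ _ := by
        have : 0 ≤ κ ^ q * ∑ D ∈ (Finset.Ioo (-(n : ℤ)) n).erase 0,
          ‖AD n (fun i => trunc (j + 1) c i - trunc j c i) D‖ ^ q :=
          mul_nonneg hκq.le (Finset.sum_nonneg fun i _ => by positivity)
        linarith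
  have h6 : |c j| * Φ ≤ R (fun i => trunc (j + 1) c i - trunc j c i) :=
    (Real.rpow_le_rpow_iff (by positivity) (hR0 _) hq0).1 h5
  have h7 := hRt (trunc (j + 1) c) (trunc j c)
  have h8 := hm c (j + 1) (by omega)
  have h9 := hm c j (by omega)
  have h10 : R (trunc (j + 1) c) ≤ E (trunc (j + 1) c) := by
    simp only [hE]; linarith [abs_nonneg (κ * ∑ i ∈ Finset.range n, trunc (j + 1) c i)]
  have h11 : R (trunc j c) ≤ E (trunc j c) := by
    simp only [hE]; linarith [abs_nonneg (κ * ∑ i ∈ Finset.range n, trunc j c i)]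
  show |c j| * Φ ≤ 2 * (4 * (C1 + C2)) ^ (1 / q) * E c
  linarith

end Pool.Agent.W692.TB
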