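import Pool.Agent.W692.TB.Stage3

open scoped BigOperators Topology ENNReal NNReal
open Filter Set MeasureTheory H316F

namespace Pool.Agent.W692.TB

variable {p : ℝ≥0∞} [hp1 : Fact (1 ≤ p)]

/-- the vectors `r_j` of a block; `Q = 2 * 2 ^ μ`, `L = 3 n` -/
noncomputable def rj (F : X p) (μ : ℕ) (n : ℕ) (v : ℕ → ℝ) (κ : ℝ) (H : ℂ → X p) (j : ℕ) : X p :=
  (Tr ℝ p (((3 * n + j : ℕ) : ℤ) * (2 * 2 ^ μ)) F +
    ∑ k ∈ Finset.Ico 1 n, v k • Tr ℝ p (((3 * n + (j + k) : ℕ) : ℤ) * (2 * 2 ^ μ)) F) +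
  κ • ∑ r ∈ Finset.range n, (if r = j then 0 else
    Tr ℝ p ((((j : ℤ) - r : ℤ) : ℝ) * (2 * 2 ^ μ)) (H (ph n j r)))

theorem rj_sum (F : X p) (μ : ℕ) (n : ℕ) (v : ℕ → ℝ) (κ : ℝ) (H : ℂ → X p)
    (hadd : ∀ A B, H (A + B) = H A + H B) (hsm : ∀ (t : ℝ) A, H (t * A) = t • H A) (c : ℕ → ℝ) :
    ∑ j ∈ Finset.range n, c j • rj F μ n v κ H j =
      ∑ i ∈ Finset.range (2 * n), yco n v c i • Tr ℝ p (((3 * n + i : ℕ) : ℤ) * (2 * 2 ^ μ)) F +
      ∑ D ∈ (Finset.Ioo (-(n : ℤ)) n).erase 0, Tr ℝ p ((D : ℝ) * (2 * 2 ^ μ)) (κ • H (AD n c D)) := by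
  have h1 := main_identity n v c (fun i => Tr ℝ p (((3 * n + i : ℕ) : ℤ) * (2 * 2 ^ μ)) F)
  have h2 := w_identity H hadd hsm n c
    (fun D => ((Tr ℝ p ((D : ℝ) * (2 * 2 ^ μ))).toLinearMap : X p →ₗ[ℝ] X p))
  simp only [LinearIsometry.coe_toLinearMap] at h2
  have h3 : ∑ D ∈ (Finset.Ioo (-(n : ℤ)) n).erase 0, Tr ℝ p ((D : ℝ) * (2 * 2 ^ μ)) (κ • H (AD n c D)) =
      κ • ∑ D ∈ (Finset.Ioo (-(n : ℤ)) n).erase 0, Tr ℝ p ((D : ℝ) * (2 * 2 ^ μ)) (H (AD n c D)) := by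
    rw [Finset.smul_sum]
    exact Finset.sum_congr rfl fun D _ => map_smul _ _ _
  rw [h3, ← h1, ← h2]
  simp only [rj, smul_add, Finset.sum_add_distrib]
  congr 1
  rw [Finset.smul_sum]
  refine Finset.sum_congr rfl fun j _ => ?_
  rw [smul_comm]

theorem rj_norm (htr : S_trans) (hp : p ≠ ⊤) (F : X p) (μ : ℕ) {n : ℕ} (hn : 1 ≤ n) (v : ℕ → ℝ)
    {κ : ℝ} (hκ : 0 < κ) (H : ℂ → X p)
    (hadd : ∀ A B, H (A + B) = H A + H B) (hsm : ∀ (t : ℝ) A, H (t * A) = t • H A)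
    (hF : SuppOn (Bx μ) F) (hH : ∀ A, SuppOn (Bx μ) (H A)) (c : ℕ → ℝ) :
    ‖∑ j ∈ Finset.range n, c j • rj F μ n v κ H j‖ ^ p.toReal =
      MN p.toReal n v c * ‖F‖ ^ p.toReal +
      κ ^ p.toReal * ∑ D ∈ (Finset.Ioo (-(n : ℤ)) n).erase 0, ‖H (AD n c D)‖ ^ p.toReal := by
  classical
  set G : ℤ → X p := fun z => if z < n then κ • H (AD n c z) else
    yco n v c (z - 3 * n).toNat • F with hG
  set Z1 := (Finset.Ioo (-(n : ℤ)) n).erase 0 with hZ1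
  set Z2 := (Finset.range (2 * n)).image (fun i : ℕ => ((3 * n + i : ℕ) : ℤ)) with hZ2
  have hinj : ∀ x ∈ Finset.range (2 * n), ∀ y ∈ Finset.range (2 * n),
      ((3 * n + x : ℕ) : ℤ) = ((3 * n + y : ℕ) : ℤ) → x = y := by
    intro x _ y _ h
    have : 3 * n + x = 3 * n + y := by exact_mod_cast h
    omega
  have hdis : Disjoint Z1 Z2 := by
    rw [Finset.disjoint_left]
    intro z h1 h2
    rw [hZ1, Finset.mem_erase, Finset.mem_Ioo] at h1
    rw [hZ2, Finset.mem_image] at h2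
    obtain ⟨i, _, h3⟩ := h2
    push_cast at h3
    omega
  have hG1 : ∀ z ∈ Z1, G z = κ • H (AD n c z) := by
    intro z hz
    rw [hZ1, Finset.mem_erase, Finset.mem_Ioo] at hz
    simp only [hG]
    rw [if_pos hz.2.2]
  have hG2 : ∀ i : ℕ, G ((3 * n + i : ℕ) : ℤ) = yco n v c i • F := by
    intro i
    simp only [hG]
    rw [if_neg (by push_cast; omega)]
    congr 2
    push_cast
    omega
  have hsum : ∑ j ∈ Finset.range n, c j • rj F μ n v κ H j =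
      ∑ z ∈ Z1 ∪ Z2, Tr ℝ p ((z : ℝ) * (2 * 2 ^ μ)) (G z) := by
    rw [rj_sum F μ n v κ H hadd hsm, Finset.sum_union hdis, add_comm]
    congr 1
    · exact Finset.sum_congr rfl fun z hz => by rw [hG1 z hz]
    · rw [hZ2, Finset.sum_image hinj]
      refine Finset.sum_congr rfl fun i _ => ?_
      rw [hG2, map_smul]
  have hsupp : ∀ z ∈ Z1 ∪ Z2, SuppOn (Bx μ) (G z) := by
    intro z _
    simp only [hG]
    split_ifs
    · exact (hH _).smul _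
    · exact hF.smul _
  rw [hsum, htr p hp μ (2 * 2 ^ μ) le_rfl _ G hsupp, Finset.sum_union hdis, add_comm]
  congr 1
  · rw [hZ2, Finset.sum_image hinj, MN, Finset.sum_mul]
    refine Finset.sum_congr rfl fun i _ => ?_
    rw [hG2, norm_smul, Real.mul_rpow (norm_nonneg _) (norm_nonneg _), Real.norm_eq_abs]
  · rw [Finset.mul_sum]
    refine Finset.sum_congr rfl fun z hz => ?_
    rw [hG1 z hz, norm_smul, Real.mul_rpow (norm_nonneg _) (norm_nonneg _), Real.norm_eq_abs,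
      abs_of_pos hκ]

/-- the vectors `r_j` live in the annulus -/
theorem rj_supp (F : X p) (μ μ' : ℕ) {n : ℕ} (v : ℕ → ℝ) {κ : ℝ} (H : ℂ → X p)
    (hF : SuppOn (Bx μ) F) (hH : ∀ A, SuppOn (Bx μ) (H A))
    (hμ' : (5 * (n : ℝ) + 1) * (2 * 2 ^ μ) ≤ 2 ^ μ') {j : ℕ} (hj : j < n) :
    SuppOn (An μ μ') (rj F μ n v κ H j) := by
  have h2 : (0 : ℝ) < 2 ^ μ := by positivity
  have hjr : (j : ℝ) + 1 ≤ n := by exact_mod_cast hj
  have hA : ∀ i : ℕ, i < 2 * n → SuppOn (An μ μ')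
      (Tr ℝ p ((((3 * n + i : ℕ) : ℤ) : ℝ) * (2 * 2 ^ μ)) F) := by
    intro i hi
    refine supp_annulus (by omega) F hF ?_
    refine le_trans ?_ hμ'
    have h3 : (((3 * n + i : ℕ) : ℤ) : ℝ) = 3 * n + i := by push_cast; ring
    rw [h3, abs_of_nonneg (by positivity)]
    have h4 : (i : ℝ) ≤ 2 * n := by exact_mod_cast hi.le
    gcongr
    linarith
  unfold rj
  refine supp_add (supp_add ?_ ?_) ?_
  · exact_mod_cast hA j (by omega)
  · refine SuppOn.sum fun k hk => SuppOn.smul ?_ _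
    rw [Finset.mem_Ico] at hk
    exact_mod_cast hA (j + k) (by omega)
  · refine SuppOn.smul ?_ _
    refine SuppOn.sum fun r hr => ?_
    rw [Finset.mem_range] at hr
    split_ifs with h
    · filter_upwards [Lp.coeFn_zero ℝ p (volume : Measure ℝ)] with t ht _
      rw [ht]; rfl
    · refine supp_annulus (by omega) _ (hH _) ?_
      refine le_trans ?_ hμ'
      have h3 : |(((j : ℤ) - r : ℤ) : ℝ)| ≤ 5 * n := by
        push_cast
        rw [abs_le]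
        have : (r : ℝ) + 1 ≤ n := by exact_mod_cast hr
        constructor <;> linarith [Nat.cast_nonneg (α := ℝ) r, Nat.cast_nonneg (α := ℝ) j]
      gcongr

end Pool.Agent.W692.TB
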