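import Pool.Agent.W692.TB.Stage4

open scoped BigOperators Topology ENNReal NNReal
open Filter Set MeasureTheory H316F

namespace Pool.Agent.W692.TB

variable {p : ℝ≥0∞} [hp1 : Fact (1 ≤ p)]

/-- the new function -/
noncomputable def Fn (F : X p) (μ : ℕ) (n M : ℕ) (v : ℕ → ℝ) (κ : ℝ) (H1 : X p) : X p :=
  F + ∑ k ∈ Finset.Ico 1 n, v k • Tr ℝ p ((k : ℝ) * (2 * 2 ^ μ)) F +
    κ • ∑ r ∈ Finset.range n, Tr ℝ p (-((3 * n + r : ℝ) * (2 * 2 ^ μ)) - (r : ℝ) ^ 2 / 2 ^ M) H1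

/-- the positions -/
noncomputable def lamj (μ n M : ℕ) (j : ℕ) : ℝ := (3 * n + j : ℝ) * (2 * 2 ^ μ) + (j : ℝ) ^ 2 / 2 ^ M

theorem Tr_Fn (F : X p) (μ : ℕ) (n M : ℕ) (v : ℕ → ℝ) (κ : ℝ) (H1 : X p) (j : ℕ) :
    Tr ℝ p (lamj μ n M j) (Fn F μ n M v κ H1) =
      (Tr ℝ p (((3 * n + j : ℕ) : ℤ) * (2 * 2 ^ μ)) (Tr ℝ p ((j : ℝ) ^ 2 / 2 ^ M) F) +
      ∑ k ∈ Finset.Ico 1 n, v k • Tr ℝ p (((3 * n + (j + k) : ℕ) : ℤ) * (2 * 2 ^ μ))
        (Tr ℝ p ((j : ℝ) ^ 2 / 2 ^ M) F)) +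
      κ • ∑ r ∈ Finset.range n, Tr ℝ p ((((j : ℤ) - r : ℤ) : ℝ) * (2 * 2 ^ μ))
        (Tr ℝ p ((((j : ℤ) ^ 2 - (r : ℤ) ^ 2 : ℤ) : ℝ) / 2 ^ M) H1) := by
  rw [Fn, map_add, map_add, map_smul, map_sum, map_sum]
  congr 1
  · congr 1
    · rw [Tr_Tr, lamj]
      congr 2
      push_cast
      ring
    · refine Finset.sum_congr rfl fun k _ => ?_
      rw [map_smul, Tr_Tr, Tr_Tr, lamj]
      congr 3
      push_cast
      ring
  · congr 1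
    refine Finset.sum_congr rfl fun r _ => ?_
    rw [Tr_Tr, Tr_Tr, lamj]
    congr 2
    push_cast
    ring

theorem ph_eq {n a : ℕ} (ha : 2 ^ a = 2 * n) (j r : ℕ) :
    ph n j r = Complex.exp (Complex.I * (2 * Real.pi * (((j : ℤ) ^ 2 - (r : ℤ) ^ 2 : ℤ) : ℂ) / 2 ^ a)) := by
  have h1 : (2 : ℂ) ^ a = 2 * n := by exact_mod_cast ha
  rw [ph, h1]
  congr 1
  push_cast
  have hn : (n : ℂ) ≠ 0 := by
    intro h
    rw [h, mul_zero] at h1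
    exact pow_ne_zero a two_ne_zero h1
  field_simp

theorem approx_j (F : X p) (μ : ℕ) (n M : ℕ) (v : ℕ → ℝ) {κ : ℝ} (hκ : 0 < κ) (H : ℂ → X p)
    (t : ℕ → ℕ → ℝ)
    (hH : ∀ j r : ℕ, ‖Tr ℝ p ((((j : ℤ) ^ 2 - (r : ℤ) ^ 2 : ℤ) : ℝ) / 2 ^ M) (H 1) - H (ph n j r)‖ ≤ t j r)
    {j : ℕ} (hj : j < n) :
    ‖Tr ℝ p (lamj μ n M j) (Fn F μ n M v κ (H 1)) - (rj F μ n v κ H j + κ • H 1)‖ ≤
      (1 + ∑ k ∈ Finset.Ico 1 n, |v k|) * ‖Tr ℝ p ((j : ℝ) ^ 2 / 2 ^ M) F - F‖ +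
        κ * ∑ r ∈ Finset.range n, t j r := by
  have e1 : κ • H 1 = κ • ∑ r ∈ Finset.range n, (if r = j then H 1 else 0) := by
    rw [Finset.sum_ite_eq', if_pos (Finset.mem_range.2 hj)]
  have e2 : Tr ℝ p (lamj μ n M j) (Fn F μ n M v κ (H 1)) - (rj F μ n v κ H j + κ • H 1) =
      (Tr ℝ p (((3 * n + j : ℕ) : ℤ) * (2 * 2 ^ μ)) (Tr ℝ p ((j : ℝ) ^ 2 / 2 ^ M) F - F) +
      ∑ k ∈ Finset.Ico 1 n, v k • Tr ℝ p (((3 * n + (j + k) : ℕ) : ℤ) * (2 * 2 ^ μ))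
        (Tr ℝ p ((j : ℝ) ^ 2 / 2 ^ M) F - F)) +
      κ • ∑ r ∈ Finset.range n, Tr ℝ p ((((j : ℤ) - r : ℤ) : ℝ) * (2 * 2 ^ μ))
        (Tr ℝ p ((((j : ℤ) ^ 2 - (r : ℤ) ^ 2 : ℤ) : ℝ) / 2 ^ M) (H 1) - H (ph n j r)) := by
    rw [Tr_Fn, e1, rj]
    simp only [map_sub, smul_sub, Finset.sum_sub_distrib]
    have e3 : κ • ∑ r ∈ Finset.range n, Tr ℝ p ((((j : ℤ) - r : ℤ) : ℝ) * (2 * 2 ^ μ)) (H (ph n j r)) =
        κ • ∑ r ∈ Finset.range n, (if r = j then 0 else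
          Tr ℝ p ((((j : ℤ) - r : ℤ) : ℝ) * (2 * 2 ^ μ)) (H (ph n j r))) +
        κ • ∑ r ∈ Finset.range n, (if r = j then H 1 else 0) := by
      rw [← smul_add, ← Finset.sum_add_distrib]
      congr 1
      refine Finset.sum_congr rfl fun r _ => ?_
      by_cases h : r = j
      · subst h
        rw [if_pos rfl, if_pos rfl, zero_add, ph_self, sub_self, Int.cast_zero, zero_mul, Tr_zero]
      · rw [if_neg h, if_neg h, add_zero]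
    rw [e3]
    abel
  rw [e2]
  refine (norm_add_le _ _).trans (add_le_add ?_ ?_)
  · refine (norm_add_le _ _).trans ?_
    rw [add_mul, one_mul, Finset.sum_mul]
    refine add_le_add ?_ ?_
    · rw [LinearIsometry.norm_map]
    · refine (norm_sum_le _ _).trans (Finset.sum_le_sum fun k _ => ?_)
      rw [norm_smul, LinearIsometry.norm_map, Real.norm_eq_abs]
  · rw [norm_smul, Real.norm_eq_abs, abs_of_pos hκ]
    gcongr
    refine (norm_sum_le _ _).trans (Finset.sum_le_sum fun r _ => ?_)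
    rw [LinearIsometry.norm_map]
    exact hH j r

/-- norm of the increment -/
theorem Fn_sub (htr : S_trans) (hp : p ≠ ⊤) (F : X p) (μ : ℕ) {n M : ℕ} (v : ℕ → ℝ)
    {κ : ℝ} (hκ : 0 < κ) (H1 : X p) (hμ : 1 ≤ μ) (hM : n ^ 2 ≤ 2 ^ M)
    (hF : SuppOn (Bx μ) F) (hH : SuppOn (Ico 0 2) H1) :
    ‖Fn F μ n M v κ H1 - F‖ ≤ (∑ k ∈ Finset.Ico 1 n, |v k| ^ p.toReal) ^ (1 / p.toReal) * ‖F‖ +
      κ * (n : ℝ) ^ (1 / p.toReal) * ‖H1‖ := by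
  classical
  have hq := q_ge (p := p) hp
  have hq0 : 0 < p.toReal := by linarith
  have e1 : Fn F μ n M v κ H1 - F = ∑ k ∈ Finset.Ico 1 n, v k • Tr ℝ p ((k : ℝ) * (2 * 2 ^ μ)) F +
      κ • ∑ r ∈ Finset.range n, Tr ℝ p (-((3 * n + r : ℝ) * (2 * 2 ^ μ)) - (r : ℝ) ^ 2 / 2 ^ M) H1 := by
    rw [Fn]; abel
  have hroot : ∀ x : ℝ, 0 ≤ x → x = (x ^ p.toReal) ^ (1 / p.toReal) := by
    intro x hx
    rw [← Real.rpow_mul hx, mul_one_div_cancel hq0.ne', Real.rpow_one]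
  rw [e1]
  refine (norm_add_le _ _).trans (add_le_add ?_ ?_)
  · have h1 := htr p hp μ (2 * 2 ^ μ) le_rfl ((Finset.Ico 1 n).image (fun k : ℕ => (k : ℤ)))
      (fun z => v z.toNat • F) (fun z _ => hF.smul _)
    rw [Finset.sum_image (by intro x _ y _ h; have h' : (x : ℤ) = (y : ℤ) := h; exact_mod_cast h'),
      Finset.sum_image (by intro x _ y _ h; have h' : (x : ℤ) = (y : ℤ) := h; exact_mod_cast h')] at h1
    simp only [Int.toNat_natCast, map_smul, Int.cast_natCast, norm_smul, Real.norm_eq_abs] at h1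
    rw [hroot _ (norm_nonneg _), h1]
    apply le_of_eq
    have h2 : ∀ k, (|v k| * ‖F‖) ^ p.toReal = |v k| ^ p.toReal * ‖F‖ ^ p.toReal := fun k =>
      Real.mul_rpow (abs_nonneg _) (norm_nonneg _)
    simp only [h2]
    rw [← Finset.sum_mul, Real.mul_rpow (Finset.sum_nonneg fun i _ => by positivity) (by positivity),
      ← hroot _ (norm_nonneg _)]
  · rw [norm_smul, Real.norm_eq_abs, abs_of_pos hκ, mul_assoc]
    gcongr
    have hG : ∀ r : ℕ, r < n → SuppOn (Bx μ) (Tr ℝ p (-((r : ℝ) ^ 2 / 2 ^ M)) H1) := by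
      intro r hr
      refine (supp_Tr _ H1 hH _).mono ?_
      intro t ht
      rw [Set.mem_ofPred_eq, mem_Ico] at ht
      have h3 : (r : ℝ) ^ 2 / 2 ^ M ≤ 1 := by
        rw [div_le_one (by positivity)]
        have : (r : ℝ) ≤ n := by exact_mod_cast hr.le
        calc (r : ℝ) ^ 2 ≤ (n : ℝ) ^ 2 := by gcongr
          _ ≤ 2 ^ M := by exact_mod_cast hM
      have h4 : (0 : ℝ) ≤ (r : ℝ) ^ 2 / 2 ^ M := by positivity
      have h5 : (2 : ℝ) ≤ 2 ^ μ := by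
        calc (2 : ℝ) = 2 ^ 1 := by norm_num
          _ ≤ 2 ^ μ := pow_le_pow_right₀ (by norm_num) hμ
      rw [Bx, mem_Ico]
      constructor <;> linarith [ht.1, ht.2]
    have h1 := htr p hp μ (2 * 2 ^ μ) le_rfl
      ((Finset.range n).image (fun r : ℕ => -((3 * n + r : ℕ) : ℤ)))
      (fun z => Tr ℝ p (-(((-z - 3 * n : ℤ) : ℝ) ^ 2 / 2 ^ M)) H1) (by
        intro z hz
        rw [Finset.mem_image] at hz
        obtain ⟨r, hr, rfl⟩ := hz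
        have e : (-(-((3 * n + r : ℕ) : ℤ)) - 3 * n : ℤ) = (r : ℤ) := by push_cast; ring
        rw [e, Int.cast_natCast]
        exact hG r (Finset.mem_range.1 hr))
    rw [Finset.sum_image (by intro x _ y _ h; simp at h; exact h),
      Finset.sum_image (by intro x _ y _ h; simp at h; exact h)] at h1
    have e2 : ∀ r : ℕ, Tr ℝ p (((-((3 * n + r : ℕ) : ℤ) : ℤ) : ℝ) * (2 * 2 ^ μ))
        (Tr ℝ p (-(((-(-((3 * n + r : ℕ) : ℤ)) - 3 * n : ℤ) : ℝ) ^ 2 / 2 ^ M)) H1) =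
        Tr ℝ p (-((3 * n + r : ℝ) * (2 * 2 ^ μ)) - (r : ℝ) ^ 2 / 2 ^ M) H1 := by
      intro r
      rw [Tr_Tr]
      congr 2
      push_cast
      ring
    simp only [e2, LinearIsometry.norm_map] at h1
    rw [Finset.sum_const, Finset.card_range, nsmul_eq_mul] at h1
    rw [hroot _ (norm_nonneg _), h1, Real.mul_rpow (by positivity) (by positivity),
      ← hroot _ (norm_nonneg _)]

end Pool.Agent.W692.TB
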