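import Pool.Agent.W692.TB.Defs

/-!
Statements of the lemmas of the construction (MP_89175a_an). Prove them as theorems of these types.
-/

open scoped BigOperators Topology ENNReal
open Filter Set MeasureTheory H316F

namespace Pool.Agent.W692.TB

/-- TB-MAIN -/
def S_main : Prop :=
  ∀ q : ℝ, 1 < q → q < 2 → ∃ C : ℝ, 0 < C ∧ ∀ δ : ℝ, 0 < δ → ∃ v : ℕ → ℝ,
    (∀ n : ℕ, ∑ k ∈ Finset.Ico 1 n, |v k| ^ q ≤ δ) ∧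
    (∀ (n : ℕ) (c : ℕ → ℝ) (N : ℕ), N ≤ n → MN q n v (trunc N c) ≤ C * MN q n v c) ∧
    Tendsto (fun n : ℕ => (n : ℝ) ^ (1 - q) * MN q n v (fun _ => 1)) atTop (𝓝 0)

/-- TB-RIESZ: M. Riesz on `ℤ/n`, uniformly in `n` and in the truncation -/
def S_riesz : Prop :=
  ∀ q : ℝ, 1 < q → ∃ C : ℝ, 0 < C ∧ ∀ (n : ℕ) (c : ℕ → ℂ) (N : ℕ), N ≤ n →
    ∑ D ∈ Finset.range n, ‖∑ j ∈ Finset.range N,
        c j * Complex.exp (Complex.I * (2 * Real.pi * j * D / n))‖ ^ q ≤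
      C * ∑ D ∈ Finset.range n, ‖∑ j ∈ Finset.range n,
        c j * Complex.exp (Complex.I * (2 * Real.pi * j * D / n))‖ ^ q

/-- TB-W -/
def S_w : Prop :=
  S_riesz → ∀ q : ℝ, 1 < q → ∃ C : ℝ, 0 < C ∧
    (∀ (n : ℕ) (c : ℕ → ℝ) (N : ℕ), N ≤ n → WN q n (trunc N c) ≤ C * WN q n c) ∧
    Tendsto (fun n : ℕ => (n : ℝ) ^ (-q) *
      ∑ D ∈ (Finset.Ioo (-(n : ℤ)) n).erase 0, ‖AD n (fun _ => 1) D‖ ^ q) atTop (𝓝 0)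

/-- TB-HC: the oscillating functions -/
def S_hc : Prop :=
  ∀ (p : ℝ≥0∞) [Fact (1 ≤ p)], 1 < p → p < 2 → ∀ (l i a M : ℕ), l ≤ M → i < 2 ^ l →
    (∀ A B : ℂ, hc p l i a M (A + B) = hc p l i a M A + hc p l i a M B) ∧
    (∀ (t : ℝ) (A : ℂ), hc p l i a M (t * A) = t • hc p l i a M A) ∧
    (∀ A : ℂ, SuppOn (Ico 0 2) (hc p l i a M A)) ∧
    (∀ A : ℂ, ‖A‖ ^ p.toReal ≤ ‖hc p l i a M A‖ ^ p.toReal ∧
      ‖hc p l i a M A‖ ^ p.toReal ≤ 2 * ‖A‖ ^ p.toReal) ∧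
    (∀ s : ℤ, ‖Tr ℝ p ((s : ℝ) / 2 ^ M) (hc p l i a M 1) -
        hc p l i a M (Complex.exp (Complex.I * (2 * Real.pi * s / 2 ^ a)))‖ ^ p.toReal ≤
      8 * 2 ^ l * |(s : ℝ)| / 2 ^ M)

/-- TB-TRANS: disjointly supported translates -/
def S_trans : Prop :=
  ∀ (p : ℝ≥0∞) [Fact (1 ≤ p)], p ≠ ⊤ → ∀ (μ : ℕ) (Q : ℝ), 2 * 2 ^ μ ≤ Q →
    ∀ (Z : Finset ℤ) (G : ℤ → X p), (∀ z ∈ Z, SuppOn (Bx μ) (G z)) →
      ‖∑ z ∈ Z, Tr ℝ p (z * Q) (G z)‖ ^ p.toReal = ∑ z ∈ Z, ‖G z‖ ^ p.toReal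

/-- level index of the Haar function `k`: `0` for the constant, `lv k + 1` otherwise -/
def lvi (k : ℕ) : ℕ := if k = 0 then 0 else lv k + 1

/-- the sign vectors of length `K` -/
noncomputable def signs (K : ℕ) : Finset (Fin K → ℝ) :=
  Fintype.piFinset fun _ => ({1, -1} : Finset ℝ)

/-- TB-AR-A: sign unconditionality of the oscillating functions and of the Haar levels -/
def S_arA : Prop :=
  ∀ (p : ℝ≥0∞) [Fact (1 ≤ p)], 1 < p → p < 2 → ∃ C : ℝ, 0 < C ∧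
    (∀ a M : ℕ → ℕ, (∀ k, 1 ≤ a k) → (∀ k, lv k + a k ≤ M k) →
      (∀ k, M k + a (k + 1) ≤ M (k + 1)) → ∀ (K : ℕ) (t θ : ℕ → ℝ), (∀ k, θ k = 1 ∨ θ k = -1) →
      ‖∑ k ∈ Finset.range K, (θ k * t k) • hc p (lv k) (ix k) (a k) (M k) 1‖ ≤
        C * ‖∑ k ∈ Finset.range K, t k • hc p (lv k) (ix k) (a k) (M k) 1‖) ∧
    (∀ (K : ℕ) (t θ : ℕ → ℝ), (∀ k, θ k = 1 ∨ θ k = -1) →
      ‖∑ k ∈ Finset.range K, (θ (lvi k) * t k) • Hr p k‖ ≤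
        C * ‖∑ k ∈ Finset.range K, t k • Hr p k‖)

/-- TB-AR-B: finite randomisation -/
def S_arB : Prop :=
  (∀ (q : ℝ), 1 ≤ q → ∀ (K : ℕ) (a c : Fin K → ℝ), (∀ k, |c k| ≤ 1) →
    ∑ θ ∈ signs K, |∑ k, θ k * (c k * a k)| ^ q ≤ ∑ θ ∈ signs K, |∑ k, θ k * a k| ^ q) ∧
  (∀ (q : ℝ) (K L : ℕ) (ℓ : Fin K → Fin L) (a b : Fin K → ℝ), (∀ k, |a k| = |b k|) →
    (∀ k k', k ≠ k' → ℓ k = ℓ k' → a k = 0 ∨ a k' = 0) →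
    2 ^ L * ∑ θ ∈ signs K, |∑ k, θ k * a k| ^ q =
      2 ^ K * ∑ θ ∈ signs L, |∑ k, θ (ℓ k) * b k| ^ q)

/-- TB-ARENA: the oscillating Haar functions are equivalent to the Haar functions -/
def S_arena : Prop :=
  ∀ (p : ℝ≥0∞) [Fact (1 ≤ p)], 1 < p → p < 2 → ∃ c C : ℝ, 0 < c ∧ 0 < C ∧
    ∀ a M : ℕ → ℕ, (∀ k, 1 ≤ a k) → (∀ k, lv k + a k ≤ M k) →
      (∀ k, M k + a (k + 1) ≤ M (k + 1)) → ∀ (K : ℕ) (t : ℕ → ℝ),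
      c * ‖∑ k ∈ Finset.range K, t k • Hr p k‖ ≤
        ‖∑ k ∈ Finset.range K, t k • hc p (lv k) (ix k) (a k) (M k) 1‖ ∧
      ‖∑ k ∈ Finset.range K, t k • hc p (lv k) (ix k) (a k) (M k) 1‖ ≤
        C * ‖∑ k ∈ Finset.range K, t k • Hr p k‖

/-- TB-AR-C -/
def S_arC : Prop := S_arA → S_arB → S_arena

/-- TB-HAAR: Haar functions in `L_p[0,1]` -/
def S_haar : Prop :=
  ∀ (p : ℝ≥0∞) [Fact (1 ≤ p)], 1 < p → p ≠ ⊤ →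
    (∀ (t : ℕ → ℝ) (K L : ℕ), K ≤ L →
      ‖∑ k ∈ Finset.range K, t k • Hr p k‖ ≤ ‖∑ k ∈ Finset.range L, t k • Hr p k‖) ∧
    (∀ k, ‖Hr p k‖ = 1) ∧
    ∃ e : ℕ → E p, (Submodule.span ℝ (Set.range e)).topologicalClosure = ⊤ ∧
      ∀ (t : ℕ → ℝ) (K : ℕ),
        ‖∑ k ∈ Finset.range K, t k • e k‖ = ‖∑ k ∈ Finset.range K, t k • Hr p k‖

/-- TB-EXT: extension by density -/
def S_ext : Prop :=
  ∀ (V W : Type) [NormedAddCommGroup V] [NormedSpace ℝ V] [NormedAddCommGroup W]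
    [NormedSpace ℝ W] [CompleteSpace W] (e : ℕ → V) (g : ℕ → W) (c C : ℝ), 0 < c → 0 < C →
    (Submodule.span ℝ (Set.range e)).topologicalClosure = ⊤ →
    (∀ (t : ℕ → ℝ) (K : ℕ), c * ‖∑ k ∈ Finset.range K, t k • e k‖ ≤
        ‖∑ k ∈ Finset.range K, t k • g k‖ ∧
      ‖∑ k ∈ Finset.range K, t k • g k‖ ≤ C * ‖∑ k ∈ Finset.range K, t k • e k‖) →
    ∃ T : V →L[ℝ] W, (∀ k, T (e k) = g k) ∧ (∀ x, c * ‖x‖ ≤ ‖T x‖) ∧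
      ∀ x, T x ∈ (Submodule.span ℝ (Set.range g)).topologicalClosure

/-- TB-BASIC: the inequality of a basic sequence gives unique expansions -/
def S_basic : Prop :=
  ∀ (V : Type) [NormedAddCommGroup V] [NormedSpace ℝ V] [CompleteSpace V] (x : ℕ → V) (K : ℝ),
    (∀ i, x i ≠ 0) → KBasic K x → IsBasic x

/-- TB-PERT: small perturbations -/
def S_pert : Prop :=
  ∀ (V : Type) [NormedAddCommGroup V] [NormedSpace ℝ V] (x y : ℕ → V) (L : ℝ) (θ : ℕ → ℝ),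
    0 ≤ L → (∀ i, ‖y i - x i‖ ≤ θ i) → (∀ n : ℕ, L * ∑ i ∈ Finset.range n, θ i ≤ 1 / 2) →
    (∀ (c : ℕ → ℝ) (n : ℕ), ∀ i < n, |c i| ≤ L * ‖∑ i ∈ Finset.range n, c i • x i‖) →
    (∀ (c : ℕ → ℝ) (n : ℕ),
      1 / 2 * ‖∑ i ∈ Finset.range n, c i • x i‖ ≤ ‖∑ i ∈ Finset.range n, c i • y i‖ ∧
      ‖∑ i ∈ Finset.range n, c i • y i‖ ≤ 3 / 2 * ‖∑ i ∈ Finset.range n, c i • x i‖)

/-- TB-STAGE: one block of the construction -/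
def S_stage : Prop :=
  ∀ (p : ℝ≥0∞) [Fact (1 ≤ p)], 1 < p → p < 2 → ∃ C : ℝ, 0 < C ∧
    ∀ (F : X p) (μ l i m0 : ℕ) (δ : ℝ), F ≠ 0 → 1 ≤ μ → SuppOn (Bx μ) F → i < 2 ^ l → 0 < δ →
      ∃ (n μ' a M : ℕ) (F' : X p) (lam : ℕ → ℝ) (r : ℕ → X p) (κ : ℝ),
        1 ≤ n ∧ μ < μ' ∧ 1 ≤ a ∧ m0 + a ≤ M ∧ l + a ≤ M ∧ 0 < κ ∧ 1 ≤ κ * n ∧
        ‖F' - F‖ ≤ δ ∧ SuppOn (Bx μ') F' ∧
        (∀ j < n, SuppOn (An μ μ') (r j)) ∧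
        (∀ (c : ℕ → ℝ) (N : ℕ), N ≤ n →
          ‖∑ j ∈ Finset.range N, c j • r j‖ + |κ * ∑ j ∈ Finset.range N, c j| ≤
            C * (‖∑ j ∈ Finset.range n, c j • r j‖ + |κ * ∑ j ∈ Finset.range n, c j|)) ∧
        (∀ c : ℕ → ℝ, ∀ j < n, |c j| * ‖F‖ ≤
            C * (‖∑ j ∈ Finset.range n, c j • r j‖ + |κ * ∑ j ∈ Finset.range n, c j|)) ∧
        ‖∑ j ∈ Finset.range n, r j‖ ≤ δ * (κ * n) ∧
        ∑ j ∈ Finset.range n, ‖Tr ℝ p (lam j) F' - (r j + κ • hc p l i a M 1)‖ ≤ δ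

/-- beginning of the block `k` in the lexicographic order -/
def psum (n : ℕ → ℕ) (k : ℕ) : ℕ := ∑ i ∈ Finset.range k, n i

/-- TB-GLUE: blocks `r k j + κ k • h k` with `r k j` in disjoint annuli and a basic sequence `h` -/
def S_glue : Prop :=
  ∀ (p : ℝ≥0∞) [Fact (1 ≤ p)], p ≠ ⊤ → ∀ (B C : ℝ), 0 < B → 0 < C → ∃ K : ℝ, 0 < K ∧
    ∀ (μ n : ℕ → ℕ) (r : ℕ → ℕ → X p) (κ : ℕ → ℝ) (h x : ℕ → X p),
      StrictMono μ → (∀ k, 1 ≤ n k) → (∀ k, SuppOn (Bx (μ 0)) (h k)) →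
      (∀ k, ∀ j < n k, SuppOn (An (μ k) (μ (k + 1))) (r k j)) →
      (∀ k, 1 ≤ ‖h k‖ ∧ ‖h k‖ ≤ 2) → KBasic B h →
      (∀ (k : ℕ) (c : ℕ → ℝ) (N : ℕ), N ≤ n k →
        ‖∑ j ∈ Finset.range N, c j • r k j‖ + |κ k * ∑ j ∈ Finset.range N, c j| ≤
          C * (‖∑ j ∈ Finset.range (n k), c j • r k j‖ +
            |κ k * ∑ j ∈ Finset.range (n k), c j|)) →
      (∀ (k : ℕ) (c : ℕ → ℝ), ∀ j < n k, |c j| ≤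
          C * (‖∑ j ∈ Finset.range (n k), c j • r k j‖ +
            |κ k * ∑ j ∈ Finset.range (n k), c j|)) →
      (∀ k, ∀ j < n k, x (psum n k + j) = r k j + κ k • h k) →
      KBasic K x ∧
        ∀ (c : ℕ → ℝ) (N : ℕ), ∀ i < N, |c i| ≤ K * ‖∑ i ∈ Finset.range N, c i • x i‖

/-- TB-FINAL -/
def S_final : Prop :=
  ∀ (p : ℝ≥0∞) [Fact (1 ≤ p)], 1 < p → p < 2 →
    ∃ (f : X p) (lam : ℕ → ℝ), IsBasic (fun i => Tr ℝ p (lam i) f) ∧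
      ∃ (T : E p →L[ℝ] X p) (c : ℝ), 0 < c ∧ (∀ x, c * ‖x‖ ≤ ‖T x‖) ∧
        ∀ x, T x ∈ (Submodule.span ℝ (Set.range fun i => Tr ℝ p (lam i) f)).topologicalClosure

/-- TB-ASM: assembly -/
def S_asm : Prop :=
  S_haar → S_ext → S_basic → S_pert → S_arena → S_hc → S_glue → S_stage → S_final

end Pool.Agent.W692.TB
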